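import Pool.Agent.Helper14.W5.StB

/-!
# Project P13 (levels `13^n`): dimensions

`SymP`, `NewSymP`, `NSP`, `evLP`, `SPHk`, ..., `SPB3a` of project W5 are for every prime `p` and are used as they are (`p = 13`).
-/

set_option autoImplicit false

namespace Pool.Agent.Helper76.P13

open Pool.Agent.Helper14.CV (Homog EqC act Tl)
open Pool.Agent.Helper14.W5

/-- The dimension of the new symbols of level `13^n` with `W = -1`, `* = +1`. -/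
def dd13 (n : ℕ) : ℕ :=
  if n = 0 then 0
  else if n = 1 then 0
  else if n = 2 then 5
  else if n % 2 = 1 then 84 * 169 ^ (n / 2 - 1) + 6 * 13 ^ (n / 2 - 1)
  else 1092 * 169 ^ (n / 2 - 2) - 18 * 13 ^ (n / 2 - 2)

/-- `1 + ∑_{m ≤ n} dd13 m`; `DD13 1 = 1`, `DD13 2 = 6`, `DD13 3 = 96`, `DD13 4 = 1170`. -/
def DD13 (n : ℕ) : ℕ := 1 + ∑ m ∈ Finset.range (n + 1), dd13 m

/-- The space of new symbols of level `p^n` modulo constants has dimension at most `dd n` (`n ≥ 3`). -/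
def UBP (p : ℕ) (dd : ℕ → ℕ) : Prop := ∀ n : ℕ, 3 ≤ n → ∃ Θ : NSP p n →ₗ[ℂ] (Fin (dd n) → ℂ),
  ∀ G : NSP p n, Θ G = 0 → EqC (G : ℤ → ℤ → ℂ) 0

/-- Small values (sanity). -/
theorem dd13_small : dd13 1 = 0 ∧ dd13 2 = 5 ∧ dd13 3 = 90 ∧ dd13 4 = 1074 ∧ dd13 5 = 14274 ∧ dd13 6 = 184314 ∧
    DD13 1 = 1 ∧ DD13 2 = 6 ∧ DD13 3 = 96 ∧ DD13 4 = 1170 ∧ DD13 5 = 15444 := by
  refine ⟨?_, ?_, ?_, ?_, ?_, ?_, ?_, ?_, ?_, ?_, ?_⟩ <;> simp [dd13, DD13, Finset.sum_range_succ]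

end Pool.Agent.Helper76.P13
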