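import Pool.Agent.Helper28.P13.Lists
import Pool.Agent.Helper2.P13.StP
import Pool.Agent.Helper10.P13.Pj
import Pool.Agent.Helper10.P13.Ldg
import Pool.Agent.Helper76.P13.Defs
import Pool.Agent.Helper83.P1C.StB

/-!
# Project P13 (levels `13^n`): lower bound

Models: `Helper4/P11/StD.lean` (levels `11^n`, proved: modules `Pool/Agent/*/P11/M_*.lean`, the same names; words given as lists of primes) and, for everything with four relations and parametrised solutions (RLL, STA, LWD, SUR, LED, OMG, OM, TRF, TRI), `Helper14/TK7/StD.lean` (levels `3·7^n`, proved: modules `Pool/Agent/*/TK7/M_*.lean`).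
The calculus modulo 13 is `Helper84/P13/StD1.lean` (proved: `Helper84/P13/D1.lean`), the plane functions `Helper2/P13/StP.lean` (proved), the projectors and LDG `Helper10/P13/{Pj,Ldg}.lean` (proved).
FOUR plane functions `F0 = {0 → ∞}`, `F1 = {0 → 1/3}`, `F2 = {1/3 → 1/2}`, `F3 = {1/2 → 2/3}`, four relations; solutions are parametrised by `u = (F0, a, b, c, e)`: `F1 = a - a∘ρ1`, `F2 = b - b∘β`, `F3 = c - c∘α` with ONE equation `DfP u = 0`.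
Modulo operators which lower by two (`X = dX`, `Y = dY`): `ρ1 = (4 -1; 13 -3) ≡ oW 8 (1 + 3X + 4Y)`, `β = (5 -2; 13 -5) ≡ oW 6 (1 + 10X + 5Y)`, `α = (8 -5; 13 -8) ≡ oW 6 (1 + X + 8Y)`, `ρ2 = (10 -7; 13 -9) ≡ oW 4 (1 + 11X + 10Y)`; on the class `κ` (`pj κ`, class of `bb13 A B`: `A - B` modulo `12`)
`oW 8`, `oW 6`, `oW 4` act by `9^κ`, `(-1)^κ`, `3^κ`. `U` has the leading form `XY` (lowering 3), `V` has the leading form `X^13 Y + X^7 Y^7 + X Y^13` (lowering 15), scalar on the four functions. FOURTEEN families `c = 0, ..., 13` of functionals. Ranks 6, 96, 1170.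
-/

set_option autoImplicit false

namespace Pool.Agent.Helper76.P13D

open Pool.Agent.Helper14.CV (Homog EqC act Tl StFar StFex)
open Pool.Agent.Helper28.WK (SymP Tw evw Ok)
open Pool.Agent.Helper84.P13
open Pool.Agent.Helper28.P13
open Pool.Agent.Helper2.P13 (pf13 kP Rel13 S13Rel S13Ex S13Uni S13Sol S13Sor S13Lifp)
open Pool.Agent.Helper10.P13 (pj S13Pj)
open Pool.Agent.Helper76.P13 (dd13)
open Pool.Agent.Helper93.TLE (DDE)
open Pool.Agent.Helper83.P1C (LBP)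

/-! ### Rows of operators -/

/-- RLL (from TRM). The relations as operators. Models: the module RLL of TK7 (`Pool/Agent/*/TK7/M_Rll*.lean`), `Pool/Agent/Helper16/P11/M_Rll.lean`. -/
def TRll : Prop := ∀ (r s : ℕ) (F : Fin 4 → Fn13 (13 ^ r) (13 ^ s)), Rel13 F →
  ∀ ρ : Fin 4, ∑ f : Fin 4, opL (relM ρ f) (F f) = 0

/-- HK (from HKF, TRE, TRM). The rows of `T_l`. (helper93.) -/
def THkL (l : ℕ) (T : Fin 4 → Fin 4 → List Tm) : Prop := ∀ (r s : ℕ) (G : ℤ → ℤ → ZMod 13), SymP 13 r (s + 1) G → ∀ i : Fin 4,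
  (pf13 (Tl l (13 ^ r) G) i : Fn13 (13 ^ r) (13 ^ s)) = ∑ f : Fin 4, opL (T i f) (pf13 G f)

/-- All rows. -/
def THk : Prop := ∀ l ∈ PrM, THkL l (TM l)

/-! ### The operators on symbols and the words -/

section

variable {R : Type} [AddCommGroup R]

/-- A combination of words. -/
def cO (W : List (ℤ × List ℕ)) (m : ℤ) (G : ℤ → ℤ → R) : ℤ → ℤ → R := (W.map fun t => t.1 • Tw m t.2 G).sum

/-- The value of the symbol of `G` at the word `O_c U^i V^j` of `{0, ∞}`. -/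
def evM (m : ℤ) (G : ℤ → ℤ → R) (c i j : ℕ) : R :=
  cO (OW c) m ((cO UW m)^[i] ((cO VW m)^[j] G)) 1 0 - cO (OW c) m ((cO UW m)^[i] ((cO VW m)^[j] G)) 0 1

end

/-- The exponents of the leading monomial `X^(aM c + i + 13j) Y^(bM c + i + j)` of the word `(c, i, j)`. -/
def aM (c : ℕ) : ℕ := ([0, 1, 2, 4, 5, 7, 3, 5, 7, 9, 9, 11, 11, 12] : List ℕ).getD c 12

/-- See `aM`. -/
def bM (c : ℕ) : ℕ := if c ≤ 5 then 0 else 1

/-- The degree of the functional `c` at the origin: `0, 1, 2, 4, 5, 7, 4, 6, 8, 10, 10, 12, 12, 13`. -/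
def nOM (c : ℕ) : ℕ := aM c + bM c

/-- The degree of the word. -/
def dgM (c i j : ℕ) : ℕ := aM c + bM c + 2 * i + 14 * j

/-- The second coordinate of the order (`(dgM, rhM)`, lexicographic, then `13` before the other `c`). -/
def rhM (c i j : ℕ) : ℕ := (if 6 ≤ c ∧ c ≤ 12 then 1 else 0) + i + j

/-- The coefficient of `X^(n - i) Y^i`, `n = nOM c`, in the form of the functional `c` on `F_f` (`K = F2 + F3`): `0`: `F0`; `1`: `(3X+Y)K`; `2`: `5X² F0 + (9X²+Y²) F1`; `3`: `11X⁴ F0 + (3X⁴+Y⁴) F1`; `4`: `(9X⁵+Y⁵)K`; `5`: `(3X⁷+Y⁷)K`; `6`: `(X³Y+XY³) F0`; `7`: `(X⁵Y+XY⁵) F0`; `8`: `(X⁷Y+XY⁷) F0`;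
`9`: `(X⁹Y+XY⁹) F0`; `10`: `5X⁹Y F0 + (9X⁹Y+XY⁹) F1`; `11`: `(X¹¹Y+XY¹¹) F0`; `12`: `11X¹¹Y F0 + (3X¹¹Y+XY¹¹) F1`; `13`: `(3X¹³+5X¹²Y+2XY¹²+Y¹³)K`. -/
def qOM (c f i : ℕ) : ℤ :=
  ((([[[1]], [[], [], [3, 1], [3, 1]], [[5], [9, 0, 1]], [[11], [3, 0, 0, 0, 1]], [[], [], [9, 0, 0, 0, 0, 1], [9, 0, 0, 0, 0, 1]],
    [[], [], [3, 0, 0, 0, 0, 0, 0, 1], [3, 0, 0, 0, 0, 0, 0, 1]], [[0, 1, 0, 1]], [[0, 1, 0, 0, 0, 1]], [[0, 1, 0, 0, 0, 0, 0, 1]],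
    [[0, 1, 0, 0, 0, 0, 0, 0, 0, 1]], [[0, 5], [0, 9, 0, 0, 0, 0, 0, 0, 0, 1]], [[0, 1, 0, 0, 0, 0, 0, 0, 0, 0, 0, 1]],
    [[0, 11], [0, 3, 0, 0, 0, 0, 0, 0, 0, 0, 0, 1]],
    [[], [], [3, 5, 0, 0, 0, 0, 0, 0, 0, 0, 0, 0, 2, 1], [3, 5, 0, 0, 0, 0, 0, 0, 0, 0, 0, 0, 2, 1]]] :
    List (List (List ℤ))).getD c []).getD f []).getD i 0

/-- The functional `c` on `F_f` as an operator (the value at the origin is taken). -/
def MoM (c f : ℕ) {q q' : ℕ} : Module.End (ZMod 13) (Fn13 q q') :=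
  ∑ i ∈ Finset.range (nOM c + 1), ((qOM c f i : ℤ) : ZMod 13) • (dX ^ (nOM c - i) * dY ^ i)

/-- The leading operator of `U`. -/
def QoM {q q' : ℕ} : Module.End (ZMod 13) (Fn13 q q') := dX * dY

/-- The leading operator of `V`. -/
def LoM {q q' : ℕ} : Module.End (ZMod 13) (Fn13 q q') := dX ^ 13 * dY + dX ^ 7 * dY ^ 7 + dX * dY ^ 13

/-! ### Certificates (finite computations) -/

/-- CEG. All terms are good. -/
def TCeG : Prop :=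
  (∀ l ∈ PrM, ∀ i f : Fin 4, ∀ t ∈ TM l i f, Gd t) ∧
  (∀ ρ f : Fin 4, (∀ t ∈ relM ρ f, Gd t) ∧ (∀ t ∈ mUM ρ f, Gd t) ∧ (∀ t ∈ mVM ρ f, Gd t)) ∧
  ∀ c ≤ 13, ∀ ρ : Fin 4, ∀ t ∈ mOM c ρ, Gd t

/-- CEU. The coefficients of `U` of weight at most `2`: `(oB-1)(oA-1)` (`w = 0`) on the diagonal. -/
def TCeU : Prop := ∀ i f : Fin 4, ∀ w : Fin 12, ∀ t ∈ M15, t.1 + 12 * t.2.1 + t.2.2 ≤ 2 → (13 : ℤ) ∣ cS (BUM i f) w t.1 t.2.1 t.2.2 -
    (if i = f ∧ w = 0 ∧ t = (1, 0, 1) then 1 else 0)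

/-- CEV. The coefficients of `V` of weight at most `14`. (helper81, reified check.) -/
def TCeV : Prop := ∀ i f : Fin 4, ∀ w : Fin 12, ∀ t ∈ M15, (13 : ℤ) ∣ cS (BVM i f) w t.1 t.2.1 t.2.2 -
    (if i = f ∧ w = 0 then (if t = (1, 0, 13) ∨ t = (7, 0, 7) ∨ t = (13, 0, 1) then 1 else 0) else 0)

/-- The sum over the torus classes. -/
def sC (L : List Tm) (i k j : ℕ) : ℤ := ∑ w : Fin 12, cS L w i k j

/-- CEO. The functionals at the origin: the sums over the classes (`k = 0` or `i ≠ 0`, weight at most `nOM c ≤ 13`). -/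
def TCeO : Prop := ∀ c ≤ 13, ∀ f : Fin 4, ∀ t ∈ M15, (t.2.1 = 0 ∨ t.1 ≠ 0) → t.1 + 12 * t.2.1 + t.2.2 ≤ nOM c →
  (13 : ℤ) ∣ sC (BOM c f) t.1 t.2.1 t.2.2 -
    (if t.2.1 = 0 ∧ t.1 + t.2.2 = nOM c then qOM c f.val t.1 else 0)

/-! ### Leading forms -/

/-- LDG (from TRM, LOW0, NFA, EXP). One list `L` whose coefficients of weight less than `n ≤ 14` vanish modulo 13 and whose coefficients of weight `n` are `q i` for `(oB-1)^i (oA-1)^(n-i)`, `w = 0`, and `0` otherwise. `TLdg` of `Helper14/TL7/StD.lean` with `13` (`oA - 1 - dX`, `oB - 1 - dY` lower by `11`, `oA - 1`, `oB - 1` by `1`: a product of `n` factors changes by operators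
which lower by `n + 10`). Model: `Pool.Agent.Helper9.TL7.hLdg`. -/
def TLdg : Prop := ∀ (r s : ℕ) (L : List Tm) (n : ℕ) (q : ℕ → ℤ), n ≤ 14 → (∀ t ∈ L, Gd t) →
  (∀ w : Fin 12, ∀ t ∈ M15, t.1 + 12 * t.2.1 + t.2.2 < n → (13 : ℤ) ∣ cS L w t.1 t.2.1 t.2.2) →
  (∀ w : Fin 12, ∀ t ∈ M15, t.1 + 12 * t.2.1 + t.2.2 = n →
    (13 : ℤ) ∣ cS L w t.1 t.2.1 t.2.2 - (if w = 0 ∧ t.2.1 = 0 then q t.1 else 0)) →
  Lw ((opL L : Module.End (ZMod 13) (Fn13 (13 ^ r) (13 ^ s))) - ∑ i ∈ Finset.range (n + 1), ((q i : ℤ) : ZMod 13) •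
    (dX ^ (n - i) * dY ^ i : Module.End (ZMod 13) (Fn13 (13 ^ r) (13 ^ s)))) ((n : ℤ) + 1)

/-- OMG (from TRM, LOW0, NFA, EXP). The value at the origin of one list on functions of degree at most `n ≤ 14`. `TOmg` of `Helper14/TL7/StD.lean` with `13`. Model: `Pool.Agent.Helper71.TL7.hOmg`. -/
def TOmg : Prop := ∀ (r s : ℕ) (L : List Tm) (n : ℕ) (q : ℕ → ℤ), n ≤ 14 → (∀ t ∈ L, Gd t) →
  (∀ t ∈ M15, (t.2.1 = 0 ∨ t.1 ≠ 0) → t.1 + 12 * t.2.1 + t.2.2 ≤ n →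
    (13 : ℤ) ∣ sC L t.1 t.2.1 t.2.2 - (if t.2.1 = 0 ∧ t.1 + t.2.2 = n then q t.1 else 0)) →
  ∀ F : Fn13 (13 ^ r) (13 ^ s), F ∈ Wd13 (n : ℤ) → (opL L F) 0 0 = ∑ i ∈ Finset.range (n + 1), ((q i : ℤ) : ZMod 13) *
    ((dX ^ (n - i) * dY ^ i : Module.End (ZMod 13) (Fn13 (13 ^ r) (13 ^ s))) F) 0 0

/-- LDU (from OPM, LOW0, LDG, RLL, CEG, CEU). Leading forms of `U`: modulo the relations the rows are the lists `BUM`, LDG with `n = 2`, `q = (0, 1, 0)` on the diagonal, `q = 0` off the diagonal (`d` any integer). The terms of `cL UW` are good by CEG (products of good terms: OPM). Models: the module LDU of TK7, `Pool/Agent/Helper34/P11/M_LdU.lean`. -/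
def TLdU : Prop := ∀ (r s : ℕ) (d : ℤ) (F : Fin 4 → Fn13 (13 ^ r) (13 ^ s)), Rel13 F → (∀ i, F i ∈ Wd13 d) →
  ∀ i : Fin 4, (∑ f : Fin 4, opL (cL UW i f) (F f)) - QoM (F i) ∈ Wd13 (d - 3)

/-- LDV (from OPM, LOW0, LDG, RLL, CEG, CEV). Leading forms of `V`: as LDU with `n = 14`, `q 1 = q 7 = q 13 = 1`. Models: the module LDV of TK7, `Pool/Agent/Helper37/P11/M_LdV.lean`. -/
def TLdV : Prop := ∀ (r s : ℕ) (d : ℤ) (F : Fin 4 → Fn13 (13 ^ r) (13 ^ s)), Rel13 F → (∀ i, F i ∈ Wd13 d) →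
  ∀ i : Fin 4, (∑ f : Fin 4, opL (cL VW i f) (F f)) - LoM (F i) ∈ Wd13 (d - 15)

/-- OM (from OPM, LOW0, OMG, RLL, CEG, CEO). The value of `O_c` at the origin, for functions of degree at most `nOM c ≤ 13`: modulo the relations the first row is `BOM c`; OMG. Models: the module OM of TK7, `Pool/Agent/Helper67/P11/M_Om.lean`. -/
def TOm : Prop := ∀ (r s c : ℕ) (F : Fin 4 → Fn13 (13 ^ r) (13 ^ s)), c ≤ 13 → Rel13 F → (∀ f, F f ∈ Wd13 (nOM c : ℤ)) →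
  (∑ f : Fin 4, opL (cL (OW c) 0 f) (F f)) 0 0 = ∑ f : Fin 4, (MoM c f.val (F f)) 0 0

/-- The solution with parameters `(F0, a, b, c, e)`. -/
def solP {R : Type} [AddCommGroup R] {q q' : ℕ} (u : Fin 5 → ZMod q → ZMod q' → R) : Fin 4 → ZMod q → ZMod q' → R :=
  ![u 0, fun x y => u 1 x y - tr13 4 (-1) 1 (-3) (u 1) x y, fun x y => u 2 x y - tr13 5 (-2) 1 (-5) (u 2) x y,
    fun x y => u 3 x y - tr13 8 (-5) 1 (-8) (u 3) x y]

/-- The equation for the parameters: `F0 - F0∘T - (a - a∘ρ1) - (b - b∘β) - (c - c∘α) - (e - e∘ρ2)`. -/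
def DfP {R : Type} [AddCommGroup R] {q q' : ℕ} (u : Fin 5 → ZMod q → ZMod q' → R) : ZMod q → ZMod q' → R :=
  fun x y => u 0 x y - tr13 1 1 0 1 (u 0) x y - (u 1 x y - tr13 4 (-1) 1 (-3) (u 1) x y) -
    (u 2 x y - tr13 5 (-2) 1 (-5) (u 2) x y) - (u 3 x y - tr13 8 (-5) 1 (-8) (u 3) x y) -
    (u 4 x y - tr13 10 (-7) 1 (-9) (u 4) x y)

/-- STA (from LOW0, NFA, LW1, PJ). A function `E` of degree at most `e` whose classes `0` and `6` have smaller degree is `(a - ρ1 a) + (b - β b)` up to lower degree: `ρ1 ≡ oW 8`, `β ≡ oW 6` modulo `Lw 1` (LW1), which act on the class `κ` by `9^κ`, `(-1)^κ`; `a = ∑_{κ = 2,4,8,10} (1 - 9^κ)⁻¹ pj κ E`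
(`1 - 9² = -2` for `κ = 2, 8`: inverse `6`; `1 - 9⁴ = 5` for `κ = 4, 10`: inverse `8`), `b = ∑_{κ odd} 7 pj κ E`. Models: `TSol` of `Helper4/P11/StD.lean` (`Pool/Agent/Helper73/P11/M_Pst.lean`), the module STA of TK7. -/
def TSta : Prop := ∀ (r s : ℕ) (e : ℤ) (E : Fn13 (13 ^ r) (13 ^ s)), E ∈ Wd13 e → pj 0 E ∈ Wd13 (e - 1) → pj 6 E ∈ Wd13 (e - 1) →
  ∃ a b : Fn13 (13 ^ r) (13 ^ s), a ∈ Wd13 e ∧ b ∈ Wd13 e ∧
    E - (a - op13 4 (-1) 1 (-3) a) - (b - op13 5 (-2) 1 (-5) b) ∈ Wd13 (e - 1)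

/-- LWD (from TRM, LOW0, LW1). The equation up to lowering by `2`. Model: the module LWD of TK7. -/
def TLwd : Prop := ∀ (r s : ℕ) (d : ℤ) (u : Fin 5 → Fn13 (13 ^ r) (13 ^ s)), (∀ f, u f ∈ Wd13 d) →
  (DfP u : Fn13 (13 ^ r) (13 ^ s)) + dX (u 0) + (u 1 - oW 8 (u 1 + (3 : ZMod 13) • dX (u 1) + (4 : ZMod 13) • dY (u 1))) +
    (u 2 - oW 6 (u 2 + (10 : ZMod 13) • dX (u 2) + (5 : ZMod 13) • dY (u 2))) +
    (u 3 - oW 6 (u 3 + dX (u 3) + (8 : ZMod 13) • dY (u 3))) +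
    (u 4 - oW 4 (u 4 + (11 : ZMod 13) • dX (u 4) + (10 : ZMod 13) • dY (u 4))) ∈ Wd13 (d - 2)

/-- SUR (from TRM, LOW0, NFA, LW1, PJ, BB, STA, LWD). Solving the inhomogeneous equation below the top degree. By induction (downwards until `Wd13 (-1) = 0`; `DfP` is additive) it is enough to solve up to an error in `Wd13 (e - 1)`. By BB `E = dX P + dY Q` with `P, Q ∈ Wd13 (e+1)` (`e < 13^r + 13^s - 2`). Put `P' = pj 1 P + pj 7 P`, `Q' = pj 11 Q + pj 5 Q`,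
`u = (-P', 0, 4 Q', 9 Q', 0)`. By LWD and PJ (`oW 6` is `-1` on the odd classes `11, 5`; `+1` on their neighbours) `DfP u ≡ dX P' - 2 (4 + 9) Q' + (10·4 + 9) dX Q' + (5·4 + 8·9) dY Q' = dX P' + 10 dX Q' + dY Q'` modulo `Wd13 (e - 1)` (`26 = 0`, `49 = 10`, `92 = 1`). `E' = E - DfP u` has degree at most `e`, `pj 0 E'`, `pj 6 E'` have degree at most `e - 1`
(`pj 0 dX ≡ dX pj 1`, `pj 0 dY ≡ dY pj 11`, `pj 6 dX ≡ dX pj 7`, `pj 6 dY ≡ dY pj 5`, and `dX Q'` has the classes `10`, `4`), so STA for `E'` gives `a`, `b` of degree at most `e`, and `DfP (0, -a, -b, 0, 0) = (a - ρ1 a) + (b - β b)`. Models: the module SUR of TK7, `Pool/Agent/Helper55/P11/M_Sur.lean`. -/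
def TSur : Prop := ∀ (r s : ℕ) (e : ℤ) (E : Fn13 (13 ^ r) (13 ^ s)), e < 13 ^ r + 13 ^ s - 2 → E ∈ Wd13 e →
  ∃ u : Fin 5 → Fn13 (13 ^ r) (13 ^ s), (∀ f, u f ∈ Wd13 (e + 1)) ∧ (DfP u : Fn13 (13 ^ r) (13 ^ s)) = E

/-- The leading coefficients of the solution with index `c`: `F_f ≡ tpM c f • bb13 A B` (for `c = 13` also `(0, 9, 5, 12) • bb13 (A+1) (B-1)`). -/
def tpM (c : ℕ) (f : Fin 4) : ZMod 13 :=
  (([![1, 0, 0, 0], ![0, 12, 11, 3], ![0, 1, 0, 0], ![0, 1, 0, 0], ![0, 12, 4, 10], ![0, 12, 11, 3], ![1, 11, 0, 0], ![1, 5, 0, 0],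
    ![1, 0, 0, 0], ![1, 11, 0, 0], ![0, 1, 0, 0], ![1, 5, 0, 0], ![0, 1, 0, 0], ![0, 12, 4, 10]] : List (Fin 4 → ZMod 13)).getD c ![0, 12, 4, 10]) f

/-- The leading function of index `c` on `F_f`. -/
def ldM (c i j : ℕ) (f : Fin 4) {q q' : ℕ} : Fn13 q q' :=
  tpM c f • bb13 (aM c + i + 13 * j) (bM c + i + j) +
    (if c = 13 then (![0, 9, 5, 12] f : ZMod 13) • bb13 (aM c + i + 13 * j + 1) (bM c + i + j - 1) else 0)

/-- LED (from TRM, LOW0, NFA, LW1, PJ, BB, SOR, STA, LWD, SUR). Solutions of the relations with given leading forms. `A = aM c + i + 13j`, `B = bM c + i + j`, `d = A + B = dgM c i j`, `κ = A - B` modulo `12` (`0, 1, 2, 4, 5, 7, 2, 4, 6, 8, 8, 10, 10, 11` for `c = 0, ..., 13`), `b = pj κ (bb13 A B) ≡ bb13 A B` modulo `Wd13 (d-1)` (PJ). Take the parameters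
`u = (u 0, ..., u 4)` equal to `b` times `(1,0,0,0,0)`, `(0,5,12,8,0)`, `(0,6,0,0,5)`, `(0,8,0,0,7)`, `(0,7,2,5,0)`, `(0,5,12,8,0)`, `(1,1,0,0,3)`, `(1,1,0,0,9)`, `(1,0,0,0,0)`, `(1,1,0,0,3)`, `(0,6,0,0,5)`, `(1,1,0,0,9)`, `(0,8,0,0,7)`, `(0,7,2,5,0)` for `c = 0, ..., 13`, and for `c = 13` in addition `b' = pj 1 (bb13 (A+1) (B-1))` times
`(0,7,9,6,0)` (if `A + 1 = 13^r` then `bb13 (A+1) (B-1) = 0`). By PJ and LW1 `solP u` is `(u 0, (1 - 9^κ) u 1, (1 - (-1)^κ) u 2, (1 - (-1)^κ) u 3)` modulo `Wd13 (d-1)`: these are `ldM`. The terms of degree `d` of `DfP u` (LWD) cancel: `(1-9^κ) u 1 + (1-(-1)^κ) (u 2 + u 3) + (1-3^κ) u 4 = 0`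
(`κ = 1`: `5·5 + 2·20 = 65`; `2`: `11·6 + 5·5 = 91`, `11·1 + 5·3 = 26`; `4`: `5·8 + 11·7 = 117`, `5·1 + 11·9 = 104`; `5`: `11·7 + 2·7 = 91`; `7`: `5·5 + 2·20 = 65`; `8`: `11·1 + 5·3`, `11·6 + 5·5`; `10`: `5·1 + 11·9`, `5·8 + 11·7`; `11`: `11·7 + 2·7`; `b'`: `κ = 1`: `5·7 + 2·15 = 65`; `1 - 9 = 5`, `1 - 9² = 11`, `1 - 3 = 11`, `1 - 9 = 5`).
So `E = DfP u ∈ Wd13 (d - 1)` and, modulo `Wd13 (d-2)`, `E ≡ -dX (u 0) + oW 8 (3 dX (u 1) + 4 dY (u 1)) + oW 6 (10 dX (u 2) + 5 dY (u 2)) + oW 6 (dX (u 3) + 8 dY (u 3)) + oW 4 (11 dX (u 4) + 10 dY (u 4))`; the class of `dX b` is `κ - 1`, of `dY b` is `κ + 1`, and `oW w = 1` on the classes `0` and `6` (`9⁶ = (-1)⁶ = 3⁶ = 1`): so `pj 0 E`, `pj 6 E ∈ Wd13 (d - 2)`: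
only `κ = 1, 7` with `dX` (`15 + 120 + 8 = 143` for `c = 1, 5`, `21 + 90 + 6 = 117` for `b'`) and `κ = 5, 11` with `dY` (`28 + 10 + 40 = 78` for `c = 4, 13`) could contribute. STA for `E` gives `a, b ∈ Wd13 (d-1)`: add `a` to `u 1`, `b` to `u 2` (`DfP` changes by `-(a - ρ1 a) - (b - β b)`); then the defect has degree at most `d - 2 < 13^r + 13^s - 2`: subtract the solution
of SUR (degree at most `d - 1`). `F = solP u`, SOR. Models: the module LED of TK7, `Pool/Agent/Helper2/P11/M_Led.lean`, `Pool/Agent/Helper80/P11/M_Led.lean`. -/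
def TLed : Prop := ∀ (r s c i j : ℕ), c ≤ 13 → aM c + i + 13 * j < 13 ^ r → bM c + i + j < 13 ^ s →
  ∃ F : Fin 4 → Fn13 (13 ^ r) (13 ^ s), Rel13 F ∧ ∀ f : Fin 4, F f - ldM c i j f ∈ Wd13 ((dgM c i j : ℤ) - 1)

/-- STP (from HKB, HK, OPM, CEG, PLA). A combination of words of primes of `PrM` preserves symbols, and its plane functions are given by the lists. Model: `Pool/Agent/Helper53/P11/M_Stp.lean` (four functions instead of three). -/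
def TStp : Prop := ∀ (r s : ℕ) (G : ℤ → ℤ → ZMod 13), SymP 13 r (s + 1) G →
  (∀ W : List (ℤ × List ℕ), (∀ t ∈ W, ∀ l ∈ t.2, l ∈ PrM) → SymP 13 r (s + 1) (cO W (13 ^ r) G) ∧
    ∀ i : Fin 4, (pf13 (cO W (13 ^ r) G) i : Fn13 (13 ^ r) (13 ^ s)) = ∑ f : Fin 4, opL (cL W i f) (pf13 G f)) ∧
  ∀ H : ℤ → ℤ → ZMod 13, (pf13 H 0 : Fn13 (13 ^ r) (13 ^ s)) 0 0 = H 1 0 - H 0 1

/-- ITR (from REL, STP, LOW0, LDU, LDV, OM). Iteration. Model: `Pool/Agent/Helper45/P11/M_Itr.lean` (`14` instead of `12`, four functions). -/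
def TItr : Prop := ∀ (r s : ℕ) (G : ℤ → ℤ → ZMod 13) (d : ℕ), SymP 13 r (s + 1) G →
  (∀ f : Fin 4, (pf13 G f : Fn13 (13 ^ r) (13 ^ s)) ∈ Wd13 (d : ℤ)) →
  ∀ c i j : ℕ, c ≤ 13 →
  (d < dgM c i j → evM (13 ^ r) G c i j = 0) ∧
  (dgM c i j = d → evM (13 ^ r) G c i j =
    ∑ f : Fin 4, ((MoM c f.val * QoM ^ i * LoM ^ j : Module.End (ZMod 13) (Fn13 (13 ^ r) (13 ^ s))) (pf13 G f)) 0 0)

/-- TRF (from LOW0, BB). The forms. (1) `MoM c f * QoM^i * LoM^j` is a form of degree `dgM c i j` in the commuting operators `dX`, `dY`, so it lowers by `dgM c i j`. (2) The value of a monomial `dX^p dY^q`, `p + q = A + B`, on `bb13 A B` at the origin is `1` if `(p, q) = (A, B)` and `0` otherwise, and `LoM^j = (XY)^j (X¹² + X⁶Y⁶ + Y¹²)^j =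
∑_x vc j x X^(13j - x) Y^(j + x)`, where `vc j x` is the coefficient of `z^x` in `(1 + z⁶ + z¹²)^j` (so `vc j 0 = 1`, and `vc j x = 0` unless `6 ∣ x`). Model: the module TRF of TK7 (`3` and `5 z³` replaced by `6` and `z⁶`), `Pool/Agent/Helper36/P11/M_Trf.lean`. -/
def TTrf : Prop :=
  (∀ (r s c i j : ℕ) (f : Fin 4), c ≤ 13 → Lw (MoM c f.val * QoM ^ i * LoM ^ j : Module.End (ZMod 13) (Fn13 (13 ^ r) (13 ^ s))) (dgM c i j)) ∧
  ∃ vc : ℕ → ℕ → ZMod 13, (∀ j, vc j 0 = 1) ∧ (∀ j x, ¬ 6 ∣ x → vc j x = 0) ∧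
    ∀ (r s c i j A B : ℕ) (f : Fin 4), c ≤ 13 → A < 13 ^ r → B < 13 ^ s → A + B = dgM c i j →
      ((MoM c f.val * QoM ^ i * LoM ^ j : Module.End (ZMod 13) (Fn13 (13 ^ r) (13 ^ s))) (bb13 A B)) 0 0 =
        ∑ m ∈ Finset.range (nOM c + 1), (if i + j + m ≤ B then ((qOM c f.val m : ℤ) : ZMod 13) * vc j (B - (i + j + m)) else 0)

/-- TRI (from LOW0, BB, LED, EX, ITR, TRF). Triangular system of symbols modulo 13. For `κ = (c, i, j)` take LED, the symbol `G` of EX; `A = aM c + i + 13j`, `B = bM c + i + j`, `s = i + j`, `d = A + B`. By ITR `evM G κ' = 0` if `dgM κ' > d`; let `dgM κ' = d`, `s' = i' + j'`: terms of lower degree are killed (TRF (1)), so the value is the sum over `f` of the values of TRF (2)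
on `ldM c i j f`. A monomial `Y^m` of the form `c'` on `F_f` contributes to `bb13 A B` only if `s' + m ≤ B` and `6 ∣ B - s' - m`; since `dgM κ' = d`, this means that the class `nOM c' - 2m` of the monomial is `A - B` modulo `12`. CLAIM: if the value is nonzero then `rhM κ' < rhM κ`, or `κ' = κ`, or `rhM κ' = rhM κ`, `c = 1`, `c' = 13`.
`c = 0` (`F0`, `B = s`): only `c' = 0`. `c = 2` (`F1`, `B = s`): `c' = 2` (`9X²`, `s' ≤ s`), `c' = 12` (`XY¹¹` on `F1`, `s' + 11 ≤ s`). `c = 3` (`F1`, `B = s`): `c' = 3` (`3X⁴`), `c' = 10` (`XY⁹`, `s' + 9 ≤ s`). `c = 6` (`F0 + 11 F1`, `B = s + 1`): `c' = 2`: `5 + 99 = 0`; `c' = 6`: `X³Y`, `s' ≤ s`; `c' = 11`, `12`: `XY¹¹`, `s' + 10 ≤ s`.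
`c = 7` (`F0 + 5 F1`): `c' = 3`: `11 + 15 = 0`; `c' = 7`: `X⁵Y`; `c' = 9, 10`: `XY⁹`, `s' + 8 ≤ s`. `c = 8` (`F0`): `c' = 8` (`X⁷Y`; `XY⁷`). `c = 9` (`F0 + 11 F1`): `c' = 9`: `X⁹Y`; `c' = 10`: `5 + 99 = 0`; `c' = 7` (`XY⁵`, `s' + 4 ≤ s`), `c' = 3` (`Y⁴`, `s' + 3 ≤ s`, `rhM κ' = s'`). `c = 10` (`F1`): `c' = 10`: `9X⁹Y`; `c' = 3`: `Y⁴`. `c = 11` (`F0 + 5 F1`): `c' = 11`: `X¹¹Y`;
`c' = 12`: `11 + 15 = 0`; `c' = 2` (`Y²`, `s' + 1 ≤ s`, `rhM κ' = s'`), `c' = 6` (`XY³`, `s' + 2 ≤ s`). `c = 12` (`F1`): `c' = 12`: `3X¹¹Y`; `c' = 2`: `Y²`. ODD `c` (the forms of even `c'` have the wrong class; `K = F2 + F3`, coefficient `14 = 1`): `c = 4` (`B = s`): `c' = 4`: `9X⁵`; `c' = 5`: `Y⁷`. `c = 5`: `c' = 5`: `3X⁷`; `c' = 4`: `Y⁵`. `c = 1` (`B = s`): `c' = 1`: `3X`; `c' = 13`: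
`3X¹³` (`s' ≤ s`, `rhM κ' = s'`), `2XY¹²`. `c = 13` (`K ≡ bb13 A B + 4 bb13 (A+1) (B-1)`, `17 = 4`, `B = s + 1`, `B - 1 = s`, `rhM κ = s`): `c' = 13`: `5X¹²Y` on `bb13 A B`, `3X¹³` on `bb13 (A+1) (B-1)`: `s' ≤ s`, the value for `κ' = κ` is `5 + 12 = 4` (`5` if `A + 1 = 13^r`, where the second function is zero); `c' = 1`: `Y` on `bb13 A B`, `3X` on `bb13 (A+1) (B-1)`:
`s' ≤ s`, and for `s' = s` the value is `1 + 12 = 0`; here `j' = j + 1`, `i' = i - 1`, `A + 1 = aM 1 + i' + 13j' < 13^r` by the hypothesis on `κ'`, so the second function is there. (Values on the diagonal: `1, 3, 9, 3, 9, 3, 1, 1, 1, 1, 9, 1, 3, 4`.) Model: the module TRI of TK7 (word for word). -/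
def TTri : Prop := ∀ (r s c i j : ℕ), c ≤ 13 → aM c + i + 13 * j < 13 ^ r → bM c + i + j < 13 ^ s →
  ∃ G : ℤ → ℤ → ZMod 13, SymP 13 r (s + 1) G ∧ evM (13 ^ r) G c i j ≠ 0 ∧
    ∀ c' i' j' : ℕ, c' ≤ 13 → aM c' + i' + 13 * j' < 13 ^ r → evM (13 ^ r) G c' i' j' ≠ 0 →
      (dgM c' i' j' < dgM c i j ∨ (dgM c' i' j' = dgM c i j ∧
        (rhM c' i' j' < rhM c i j ∨ (rhM c' i' j' = rhM c i j ∧ (c' = c ∨ (c = 1 ∧ c' = 13))))))

/-! ### Integral symbols and the lower bound -/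

/-- LIF (from REL, LIFP, EX, UNI). Lifting symbols: every symbol `g` modulo 13 lifts to an integral symbol `G` with the same `evM` modulo 13. Model: `Pool/Agent/Helper8/P11/M_Lif.lean`. -/
def TLif : Prop := ∀ (r s : ℕ) (g : ℤ → ℤ → ZMod 13), SymP 13 r (s + 1) g →
  ∃ G : ℤ → ℤ → ℤ, SymP 13 r (s + 1) G ∧
    ∀ c i j : ℕ, ((evM (13 ^ r) G c i j : ℤ) : ZMod 13) = evM (13 ^ r) g c i j

/-- UNB (from `S13Unb`, proved). Back to `Γ₀(13^n)` and to complex values. Model: `Pool/Agent/Helper16/P11/M_Unb.lean`. -/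
def TUnb : Prop := ∀ (r s : ℕ) (G : ℤ → ℤ → ℤ), SymP 13 r s G →
  SymP 13 0 (r + s) (fun p q => ((G (13 ^ r * p) q : ℤ) : ℂ)) ∧
    ∀ c i j : ℕ, evM 1 (fun p q => ((G (13 ^ r * p) q : ℤ) : ℂ)) c i j = ((evM (13 ^ r) G c i j : ℤ) : ℂ)

/-- CNT. Counting the index sets. `DDE 6 dd13 (2k) = 7t² - t`, `DDE 6 dd13 (2k+1) = 91t² + 5t` with `t = 13^(k-1)` (`k ≥ 1`; induction: `6, 96, 1170, 15444`). First set: the first condition follows from the second; `t(t+1)/2` for `c ≤ 5`, `t(t-1)/2` for `c = 6, ..., 13`. Second set: the second condition follows from the first (`bM c ≤ aM c`);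
`∑_{j<t} (13t - 13j - a) = 13t(t+1)/2 - a t` for `a = aM c` (sum `86`). Model: `Pool/Agent/Helper1/P11/M_Cnt.lean`. -/
def TCnt : Prop :=
  (∀ k : ℕ, 1 ≤ k → ((Finset.range 14 ×ˢ Finset.range (13 ^ k) ×ˢ Finset.range (13 ^ k)).filter
    fun t : ℕ × ℕ × ℕ => aM t.1 + t.2.1 + 13 * t.2.2 < 13 ^ k ∧ bM t.1 + t.2.1 + t.2.2 < 13 ^ (k - 1)).card = DDE 6 dd13 (2 * k)) ∧
  (∀ k : ℕ, 1 ≤ k → ((Finset.range 14 ×ˢ Finset.range (13 ^ k) ×ˢ Finset.range (13 ^ k)).filter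
    fun t : ℕ × ℕ × ℕ => aM t.1 + t.2.1 + 13 * t.2.2 < 13 ^ k ∧ bM t.1 + t.2.1 + t.2.2 < 13 ^ k).card = DDE 6 dd13 (2 * k + 1))

/-- LB from TRI, LIF, UNB, CNT. Lexicographic order of `(dgM, rhM)`, then `13` before the other `c` (`(dgM, rhM, c)` determines the index; in TRI only indices of the index set occur); the set of all `K` with `evw 1 ls K = 0` for all
words is stable under `Tl l 1`, `l` in `PrM`, sums and integer multiples. Level `13^n`: `n = 2k`: `(r, s) = (k, k - 1)`, `n = 2k + 1`: `(k, k)` (`SymP 13 r (s + 1)`). Models: `Pool/Agent/Helper62/P11/M_LBof.lean`, `Pool/Agent/Helper7/TK7/M_LBof.lean` (the exception `c = 1`, `c' = 7` there). -/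
def TLBof : Prop := TTri → TLif → TUnb → TCnt → LBP 13 6 dd13

end Pool.Agent.Helper76.P13D
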