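import Pool.Agent.Helper10.W3.M_Trq
import Pool.Agent.Helper38.CV.M_Far
import Pool.Agent.Helper83.P1C.StB
import Pool.Agent.Helper51.P13.M_PLA
import Pool.Agent.Helper55.P13.M_BAL
import Pool.Agent.Helper72.P13.M_TYP
import Pool.Agent.Helper97.P13.M_DIMK
import Pool.Agent.Helper13.P13.M_SPLIT
import Pool.Agent.Helper9.P13.M_DIME
import Pool.Agent.Helper8.P13.M_DIMO
import Pool.Agent.Helper2.P13.M_REP
import Pool.Agent.Helper99.P13.M_E1A
import Pool.Agent.Helper70.P13.M_E1B
import Pool.Agent.Helper60.P13.M_O1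
import Pool.Agent.Helper36.P13.M_UB

/-!
# Levels `13^n`: the upper bound for the new symbols, assembled
-/

set_option autoImplicit false

namespace Pool.Agent.Helper76.P13

/-- The upper bound for the levels `13^n`. -/
theorem ub13 : UBP 13 dd13 := by
  have pla := Pool.Agent.Helper51.P13.hPlA
  have edg := Pool.Agent.Helper51.P13.hEdg
  have typ := Pool.Agent.Helper72.P13.hTyp
  have dimK := Pool.Agent.Helper97.P13.hDimK Pool.Agent.Helper10.W3.hTrq
  have split := Pool.Agent.Helper13.P13.hSplit
  have rep := Pool.Agent.Helper2.P13.hRep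
  have far := Pool.Agent.Helper38.CV.hFar
  exact Pool.Agent.Helper36.P13.hUB Pool.Agent.Helper55.P13.hBal
    (Pool.Agent.Helper99.P13.hE1A edg pla typ)
    (Pool.Agent.Helper70.P13.hE1B edg pla rep far)
    (Pool.Agent.Helper60.P13.hO1 edg pla typ rep far)
    (Pool.Agent.Helper9.P13.hDimE typ dimK split)
    (Pool.Agent.Helper8.P13.hDimO typ dimK split)

/-- The same for the definition of `UBP` in the chain. -/
theorem ub13' : Pool.Agent.Helper83.P1C.UBP 13 dd13 := ub13

end Pool.Agent.Helper76.P13
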