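import Pool.Agent.Helper76.P13.Defs
import Pool.Agent.Helper78.W3.StC

/-!
# Project P13 (levels `13^n`): upper bound for new symbols

The shape of `Helper76/P11/StC.lean` (levels `11^n`; modules `Pool/Agent/*/P11/M_*.lean`) with `13` in place of `11`, and of `Helper76/S7/StC.lean` (levels `7^n`, `Pool/Agent/*/S7/M_*.lean`; dihedral group of order six). `μ = 0` (odd exponents): the plane is `Γ \ Γ₀(13)`, `μ = 1` (even exponents): `Γ \ {(a b; c d) | 13 ∣ b, 13 ∣ c}`. RULE FOR REFLECTIONS.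
`val π = {u, v} = G(gu) - G(gv)` for the path `π` from `v` to `u`, `F_π(p)` the value at the coordinates `p` of `g`. `b = (0 1; 1 0)` (even exponents, `μ = 1`), `b = (0 1; 13 0)` (odd exponents, `μ = 0`): if `g` has coordinates `p = (x, y)`, then `b⁻¹ g b` has coordinates `sw p = (y, x)`, `* g *` has `ng p`, `g M` has `trp μ a b c d p` for
`M = (a 13^μ b; 13c d)` of determinant one. `G∘* ≈ G`, `G∘b ≈ -G`. So for `ρ = M`: the value of `G` at the path `g ρ π` is `F_π(trp M p)`; for `ρ = b M`: `-F_π(trp M (sw p))`; for `ρ = * M`: `F_π(trp M (ng p))`; for `ρ = b * M`: `-F_π(trp M (ng (sw p)))`. All relations and the dimensions `90` (odd, `m = 1`), `1074` (even, `m = 1`) were checked by machine.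
-/

set_option autoImplicit false

namespace Pool.Agent.Helper76.P13

open Pool.Agent.Helper14.CV (Homog EqC act Tl StFar)
open Pool.Agent.Helper28.WK (SymP)
open Pool.Agent.Helper14.W5 (NewSymP NSP)

/-- The matrix `(a, 13^μ b; 13 c, d)` has determinant one and plane coordinates `(x, y)`, that is
`b = x a` modulo `q` and `c = y d` modulo `q'`. -/
def Pl13 (μ : ℕ) {q q' : ℕ} (a b c d : ℤ) (x : ZMod q) (y : ZMod q') : Prop :=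
  a * d - 13 ^ (μ + 1) * b * c = 1 ∧ (b : ZMod q) = x * a ∧ (c : ZMod q') = y * d

/-- The entry `Y` of the standard matrix `(1, 13^μ X; 13 Y, 1 + 13^(μ+1) X Y)`, `X = x.val`, with
coordinates `(x, y)`. -/
noncomputable def rY13 (μ : ℕ) {q q' : ℕ} (x : ZMod q) (y : ZMod q') : ℤ :=
  ((y * (1 - 13 ^ (μ + 1) * ((x.val : ℕ) : ZMod q') * y)⁻¹).val : ℤ)

/-- The value of the symbol of `G` on the path from `g v` to `g u` (`u = (u1,u2)`, `v = (v1,v2)`),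
where `g` is the standard matrix with plane coordinates `(x, y)`. -/
noncomputable def edge13 {R : Type} [AddCommGroup R] (μ : ℕ) {q q' : ℕ} (u1 u2 v1 v2 : ℤ)
    (G : ℤ → ℤ → R) (x : ZMod q) (y : ZMod q') : R :=
  G (u1 + 13 ^ μ * (x.val : ℤ) * u2) (13 * rY13 μ x y * u1 + (1 + 13 ^ (μ + 1) * (x.val : ℤ) * rY13 μ x y) * u2)
  - G (v1 + 13 ^ μ * (x.val : ℤ) * v2) (13 * rY13 μ x y * v1 + (1 + 13 ^ (μ + 1) * (x.val : ℤ) * rY13 μ x y) * v2)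

/-- PLA. The standard matrix has the right coordinates. Model (port `11 → 13`): `Pool/Agent/Helper84/P11/M_PlA.lean`. -/
def S13PlA : Prop := ∀ (μ r s : ℕ) (x : ZMod (13 ^ r)) (y : ZMod (13 ^ s)),
  Pl13 μ 1 (x.val : ℤ) (rY13 μ x y) (1 + 13 ^ (μ + 1) * (x.val : ℤ) * rY13 μ x y) x y

/-- The content of EDG. -/
def S13Edg : Prop := ∀ (R : Type) (_ : AddCommGroup R) (μ r s : ℕ) (G : ℤ → ℤ → R),
  SymP 13 (r + μ) (s + 1) G → ∀ (u1 u2 v1 v2 : ℤ), (u1 ≠ 0 ∨ u2 ≠ 0) → (v1 ≠ 0 ∨ v2 ≠ 0) →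
  ∀ (x : ZMod (13 ^ r)) (y : ZMod (13 ^ s)) (a b c d : ℤ), Pl13 μ a b c d x y →
  edge13 μ u1 u2 v1 v2 G x y = G (a * u1 + 13 ^ μ * b * u2) (13 * c * u1 + d * u2) -
    G (a * v1 + 13 ^ μ * b * v2) (13 * c * v1 + d * v2)

/-- EDG (from PLA). Models (port `11 → 13`): `Pool/Agent/Helper84/P11/M_PlU.lean`, `Pool/Agent/Helper84/P11/M_Edg.lean`. -/
def StHEdg : Prop := S13PlA → S13Edg

/-- Balanced new symbols, even exponent `n = 2k`. -/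
def BalE (k : ℕ) (G : ℤ → ℤ → ℂ) : Prop :=
  SymP 13 k k G ∧ EqC (∑ i ∈ Finset.range 13, act 1 (i * 13 ^ (k - 1)) 0 1 G) 0 ∧
    EqC (∑ i ∈ Finset.range 13, act 1 0 (i * 13 ^ (k - 1)) 1 G) 0 ∧
    EqC (act 0 (-1) 1 0 G) (-G) ∧ EqC (act (-1) 0 0 1 G) G

/-- Balanced new symbols, odd exponent `n = 2k+1`. -/
def BalO (k : ℕ) (G : ℤ → ℤ → ℂ) : Prop :=
  SymP 13 k (k + 1) G ∧ EqC (∑ i ∈ Finset.range 13, act 1 (i * 13 ^ (k - 1)) 0 1 G) 0 ∧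
    EqC (∑ i ∈ Finset.range 13, act 1 0 (i * 13 ^ k) 1 G) 0 ∧
    EqC (act 0 (-1) 13 0 G) (-G) ∧ EqC (act (-1) 0 0 1 G) G

/-- BAL. Transport to the balanced form by `(1 0; 0 13^k)`. Model (port `11 → 13`): `Pool/Agent/Helper44/P11/M_BAL.lean`. -/
def HBal : Prop := ∀ (k : ℕ) (G : ℤ → ℤ → ℂ), 1 ≤ k →
  (NewSymP 13 (2 * k) G → BalE k (act 1 0 0 (13 ^ k) G)) ∧
  (NewSymP 13 (2 * k + 1) G → BalO k (act 1 0 0 (13 ^ k) G)) ∧
  (Homog G → EqC (act 1 0 0 (13 ^ k) G) 0 → EqC G 0)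

/-! ### Functions on the plane `(ZMod (13^m))²` -/

/-- The plane. -/
abbrev Pt (m : ℕ) : Type := ZMod (13 ^ m) × ZMod (13 ^ m)

/-- Right translation by `(a 13^μ b; 13c d)`, on points: `(x, y) ↦ ((b + d x)/(a + 13^(μ+1) c x), (c + a y)/(d + 13^(μ+1) b y))`. -/
def trp (μ : ℕ) (a b c d : ℤ) {m : ℕ} (p : Pt m) : Pt m :=
  (((b : ZMod (13 ^ m)) + d * p.1) * ((a : ZMod (13 ^ m)) + 13 ^ (μ + 1) * c * p.1)⁻¹,
    ((c : ZMod (13 ^ m)) + a * p.2) * ((d : ZMod (13 ^ m)) + 13 ^ (μ + 1) * b * p.2)⁻¹)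

/-- `(x, y) ↦ (-x, -y)`. -/
def ng {m : ℕ} (p : Pt m) : Pt m := (-p.1, -p.2)

/-- `(x, y) ↦ (y, x)`. -/
def sw {m : ℕ} (p : Pt m) : Pt m := (p.2, p.1)

/-- The vertical line: `(x, y) ↦ (-1-x, -y/(1+13^(μ+1) y))`. -/
def dR (μ : ℕ) {m : ℕ} (p : Pt m) : Pt m := trp μ 1 (-1) 0 1 (ng p)

/-- Odd exponent (`μ = 0`): the circle around `1/2`, matrix `(13 -6; 26 -13) = b (2 -1; 13 -6)`. -/
def cO {m : ℕ} (p : Pt m) : Pt m := trp 0 2 (-1) 1 (-6) (sw p)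

/-- Odd exponent: the circle around `1/3`, matrix `(13 -4; 39 -13) = b (3 -1; 13 -4)` (exchanges `∞` and `1/3`). -/
def c3 {m : ℕ} (p : Pt m) : Pt m := trp 0 3 (-1) 1 (-4) (sw p)

/-- Even exponent (`μ = 1`): the circle around `13/2`, matrix `(13 -84; 2 -13) = b (2 -13; 13 -84)` (fixes `6`, `7`). -/
def c6 {m : ℕ} (p : Pt m) : Pt m := trp 1 2 (-1) 1 (-84) (sw p)

/-- Even exponent: matrix `(13 -21; 8 -13) = b (8 -13; 13 -21)` (fixes `3/2`, exchanges `2` and `5/3`). -/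
def cT {m : ℕ} (p : Pt m) : Pt m := trp 1 8 (-1) 1 (-21) (sw p)

/-- Even exponent: matrix `(13 -24; 7 -13) = b (7 -13; 13 -24)` (fixes `2`, exchanges `5/3` and `7/4`). -/
def cU {m : ℕ} (p : Pt m) : Pt m := trp 1 7 (-1) 1 (-24) (sw p)

/-- Even exponent: matrix `(13 -56; 3 -13) = b (3 -13; 13 -56)` (fixes `4`, exchanges `5` and `9/2`). -/
def c9 {m : ℕ} (p : Pt m) : Pt m := trp 1 3 (-1) 1 (-56) (sw p)

/-- Even exponent: matrix `(39 -95; 16 -39) = b (16 -39; 39 -95)` (fixes `5/2`, `19/8`). -/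
def cM {m : ℕ} (p : Pt m) : Pt m := trp 1 16 (-3) 3 (-95) (sw p)

/-- Even exponent: matrix `(13 -42; 4 -13) = b (4 -13; 13 -42)` (fixes `3`, `7/2`). -/
def cC {m : ℕ} (p : Pt m) : Pt m := trp 1 4 (-1) 1 (-42) (sw p)

/-- Even exponent: matrix `(13 -28; 6 -13) = b (6 -13; 13 -28)` (fixes `2`, `7/3`). -/
def cD {m : ℕ} (p : Pt m) : Pt m := trp 1 6 (-1) 1 (-28) (sw p)

/-- Even exponent: the rotation of order two which exchanges `3` and `5/2`, matrix `(13 -34; 5 -13)`, `b * (5 -13; -13 34) = -(13 -34; 5 -13)`. -/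
def rA {m : ℕ} (p : Pt m) : Pt m := trp 1 5 (-1) (-1) 34 (ng (sw p))

/-- Even exponent: the rotation of order two which exchanges `1` and `4/3`, matrix `(13 -17; 10 -13)`, `b * (10 -13; -13 17) = -(13 -17; 10 -13)`. -/
def rB {m : ℕ} (p : Pt m) : Pt m := trp 1 10 (-1) (-1) 17 (ng (sw p))

/-- Even exponent: matrix `(26 -135; 5 -26) = b (5 -26; 26 -135)` (fixes `5`, exchanges `11/2` and `16/3`). -/
def cQ {m : ℕ} (p : Pt m) : Pt m := trp 1 5 (-2) 2 (-135) (sw p)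

/-- Even exponent: matrix `(65 -352; 12 -65) = b (12 -65; 65 -352)` (fixes `11/2`, `16/3`). -/
def cR {m : ℕ} (p : Pt m) : Pt m := trp 1 12 (-5) 5 (-352) (sw p)

/-- Even exponent: the matrix `(-31 143; -13 60) = * (31 -143; -13 60)`, which maps `9/2` to `7/3` and `4` to `19/8` (not an involution). -/
def gM {m : ℕ} (p : Pt m) : Pt m := trp 1 31 (-11) (-1) 60 (ng p)

/-- Even exponent: the matrix `(-18 65; -13 47) = * (18 -65; -13 47)`, which maps `4` to `7/5` and `7/2` to `4/3` (not an involution). -/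
def gB {m : ℕ} (p : Pt m) : Pt m := trp 1 18 (-5) (-1) 47 (ng p)

/-- Even exponent: the matrix `(52 -75; 9 -13) = b (9 -13; 52 -75)`, which maps `3/2` to `6` and `7/5` to `11/2` (not an involution). -/
def gF {m : ℕ} (p : Pt m) : Pt m := trp 1 9 (-1) 4 (-75) (sw p)

/-- The map `r` is an involution. -/
def Iv {m : ℕ} (r : Pt m → Pt m) : Prop := ∀ p, r (r p) = p

/-- The maps `r`, `r'` are commuting involutions. -/
def Kl {m : ℕ} (r r' : Pt m → Pt m) : Prop :=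
  (∀ p, r (r p) = p) ∧ (∀ p, r' (r' p) = p) ∧ ∀ p, r (r' p) = r' (r p)

/-- The maps `r`, `r'` are involutions which generate a dihedral group of order six. -/
def Dh {m : ℕ} (r r' : Pt m → Pt m) : Prop :=
  (∀ p, r (r p) = p) ∧ (∀ p, r' (r' p) = p) ∧ ∀ p, r (r' (r p)) = r' (r (r' p))

/-- `φ` has derivative `s` modulo `13`. -/
def Dv {m : ℕ} (s : ℤ) (φ : ZMod (13 ^ m) → ZMod (13 ^ m)) : Prop :=
  ∀ (i : ℕ) (x x' : ZMod (13 ^ m)), (13 : ZMod (13 ^ m)) ^ i ∣ x - x' →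
    (13 : ZMod (13 ^ m)) ^ (i + 1) ∣ φ x - φ x' - s * (x - x')

/-- Type `0`: `(x, y) ↦ (φ x, φ' y)` with derivatives `s`, `s'` different from `0` and `1` modulo `13`; type `1`: `(x, y) ↦ (ψ y, ψ' x)` with derivatives prime to `13`. -/
def Ty {m : ℕ} (n : ℕ) (r : Pt m → Pt m) : Prop :=
  (n = 0 ∧ ∃ (s s' : ℤ) (φ φ' : ZMod (13 ^ m) → ZMod (13 ^ m)), ¬ (13 : ℤ) ∣ s ∧ ¬ (13 : ℤ) ∣ s - 1 ∧ ¬ (13 : ℤ) ∣ s' ∧
    ¬ (13 : ℤ) ∣ s' - 1 ∧ Dv s φ ∧ Dv s' φ' ∧ ∀ p, r p = (φ p.1, φ' p.2)) ∨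
  (n = 1 ∧ ∃ (s s' : ℤ) (ψ ψ' : ZMod (13 ^ m) → ZMod (13 ^ m)), ¬ (13 : ℤ) ∣ s ∧ ¬ (13 : ℤ) ∣ s' ∧ Dv s ψ ∧ Dv s' ψ' ∧
    ∀ p, r p = (ψ p.2, ψ' p.1))

/-- `(x, y) ↦ (φ x, φ' y)` with derivatives prime to `13` (no condition on `s - 1`): enough for `F ∈ anti13 m → F∘r ∈ anti13 m`. -/
def Tw {m : ℕ} (r : Pt m → Pt m) : Prop := ∃ (s s' : ℤ) (φ φ' : ZMod (13 ^ m) → ZMod (13 ^ m)), ¬ (13 : ℤ) ∣ s ∧ ¬ (13 : ℤ) ∣ s' ∧
  Dv s φ ∧ Dv s' φ' ∧ ∀ p, r p = (φ p.1, φ' p.2)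

/-- The types of the dihedral group of order six: reflections of type one, rotations of type zero. -/
def DT {m : ℕ} (r r' : Pt m → Pt m) : Prop :=
  Dh r r' ∧ Ty 1 r ∧ Ty 1 r' ∧ Ty 0 (fun p => r (r' p)) ∧ Ty 0 (fun p => r' (r p)) ∧ Ty 1 (fun p => r (r' (r p)))

/-- TYP. The maps above and their types. Proof as TYP of P11 (`Pool/Agent/Helper80/P11/M_TYP.lean`), `S7Typ` (`Pool/Agent/Helper42/S7/M_Typ.lean`, dihedral groups): `trp μ M' (trp μ M p) = trp μ (M M') p` (denominators are units as `13 ∤ a, d`; `trp` does not change under scalars prime to `13`), `sw (trp μ a b c d p) = trp μ d c b a (sw p)`,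
`ng (trp μ a b c d p) = trp μ a (-b) (-c) d (ng p)`, `sw (sw p) = p`, `ng (sw p) = sw (ng p)`; so all relations are identities of matrices up to a scalar. Derivatives: `1/a²`, `1/d²` modulo `13`, all prime to `13`; type `0` for `ng`, `dR` (`-1, -1`) and
the rotations; `gM`, `gB` have derivatives `1, 1` (only `Tw`); the rotations: `sw (c3 p) = trp 0 (-4) 1 (-1) 3 p`-like matrices of order three (derivatives `9, 3` or `3, 9`), `c3 (cO p)`, `cQ (cR p)` of order two (derivatives `-1, -1`). (Generator: /team-store/typgen.py.) -/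
def HTyp : Prop := ∀ m : ℕ,
  (Kl (ng : Pt m → Pt m) sw ∧ Ty 0 (ng : Pt m → Pt m) ∧ Ty 1 (sw : Pt m → Pt m) ∧ Ty 1 (fun p : Pt m => ng (sw p))) ∧
  (Kl (dR 0 : Pt m → Pt m) cO ∧ Ty 0 (dR 0 : Pt m → Pt m) ∧ Ty 1 (cO : Pt m → Pt m) ∧ Ty 1 (fun p : Pt m => dR 0 (cO p))) ∧
  DT (sw : Pt m → Pt m) c3 ∧
  (Kl (c3 : Pt m → Pt m) cO ∧ Ty 0 (fun p : Pt m => c3 (cO p))) ∧
  (Kl (dR 1 : Pt m → Pt m) c6 ∧ Ty 0 (dR 1 : Pt m → Pt m) ∧ Ty 1 (c6 : Pt m → Pt m) ∧ Ty 1 (fun p : Pt m => dR 1 (c6 p))) ∧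
  DT (cT : Pt m → Pt m) cU ∧
  (Kl (cQ : Pt m → Pt m) cR ∧ Ty 1 (cQ : Pt m → Pt m) ∧ Ty 1 (cR : Pt m → Pt m) ∧ Ty 0 (fun p : Pt m => cQ (cR p))) ∧
  ((Iv (cM : Pt m → Pt m) ∧ Ty 1 (cM : Pt m → Pt m)) ∧ (Iv (cC : Pt m → Pt m) ∧ Ty 1 (cC : Pt m → Pt m)) ∧
    (Iv (cD : Pt m → Pt m) ∧ Ty 1 (cD : Pt m → Pt m)) ∧ (Iv (rA : Pt m → Pt m) ∧ Ty 1 (rA : Pt m → Pt m)) ∧
    (Iv (rB : Pt m → Pt m) ∧ Ty 1 (rB : Pt m → Pt m)) ∧ Ty 1 (c9 : Pt m → Pt m)) ∧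
  (Tw (gM : Pt m → Pt m) ∧ Tw (gB : Pt m → Pt m) ∧ Ty 1 (gF : Pt m → Pt m)) ∧
  (∀ p : Pt m, sw (c3 p) = trp 0 (-4) 1 (-1) 3 p ∧ c3 (sw p) = trp 0 3 (-1) 1 (-4) p)

/-- Functions on the plane with vanishing sums over the translates by multiples of `13^(m-1)`, in both variables. -/
def anti13 (m : ℕ) : Submodule ℂ (Pt m → ℂ) where
  carrier := {F | ∀ p : Pt m, ∑ i ∈ Finset.range 13, F (p.1 + i * 13 ^ (m - 1), p.2) = 0 ∧
    ∑ i ∈ Finset.range 13, F (p.1, p.2 + i * 13 ^ (m - 1)) = 0}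
  add_mem' := by
    intro F F' h h' p
    simp only [Pi.add_apply, Finset.sum_add_distrib, (h p).1, (h p).2, (h' p).1, (h' p).2, add_zero,
      and_self]
  zero_mem' := by intro p; simp
  smul_mem' := by
    intro c F h p
    simp only [Pi.smul_apply, ← Finset.smul_sum, (h p).1, (h p).2, smul_zero, and_self]

/-- Functions of `anti13 m` with `F∘r = e F`. -/
def inv1 {m : ℕ} (r : Pt m → Pt m) (e : ℂ) : Submodule ℂ (Pt m → ℂ) where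
  carrier := {F | F ∈ anti13 m ∧ ∀ p : Pt m, F (r p) = e * F p}
  add_mem' := by
    rintro F F' ⟨h0, h⟩ ⟨h0', h'⟩
    refine ⟨(anti13 m).add_mem h0 h0', fun p => ?_⟩
    simp only [Pi.add_apply, h p, h' p, mul_add]
  zero_mem' := ⟨(anti13 m).zero_mem, by intro p; simp⟩
  smul_mem' := by
    rintro c F ⟨h0, h⟩
    refine ⟨(anti13 m).smul_mem c h0, fun p => ?_⟩
    simp only [Pi.smul_apply, smul_eq_mul, h p]
    ring

/-- Functions of `anti13 m` with `F∘r = e F`, `F∘r' = e' F`. -/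
def inv13 {m : ℕ} (r r' : Pt m → Pt m) (e e' : ℂ) : Submodule ℂ (Pt m → ℂ) where
  carrier := {F | F ∈ anti13 m ∧ ∀ p : Pt m, F (r p) = e * F p ∧ F (r' p) = e' * F p}
  add_mem' := by
    rintro F F' ⟨h0, h⟩ ⟨h0', h'⟩
    refine ⟨(anti13 m).add_mem h0 h0', fun p => ?_⟩
    simp only [Pi.add_apply, (h p).1, (h p).2, (h' p).1, (h' p).2, mul_add, and_self]
  zero_mem' := ⟨(anti13 m).zero_mem, by intro p; simp⟩
  smul_mem' := by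
    rintro c F ⟨h0, h⟩
    refine ⟨(anti13 m).smul_mem c h0, fun p => ?_⟩
    simp only [Pi.smul_apply, smul_eq_mul, (h p).1, (h p).2]
    constructor <;> ring

/-- The content of DIMK. -/
def HDimK : Prop := ∀ m : ℕ, 1 ≤ m → Module.finrank ℂ (anti13 m) = 144 * 169 ^ (m - 1) ∧
  (∀ (r : Pt m → Pt m) (e : ℤ), Iv r → Ty 1 r → (e = 1 ∨ e = -1) →
    2 * (Module.finrank ℂ (inv1 r (e : ℂ)) : ℤ) = 144 * 169 ^ (m - 1) + e * (12 * 13 ^ (m - 1))) ∧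
  (∀ (r r' : Pt m → Pt m) (n n' n'' : ℕ) (e e' : ℤ), Kl r r' → Ty n r → Ty n' r' →
    Ty n'' (fun p => r (r' p)) → (e = 1 ∨ e = -1) → (e' = 1 ∨ e' = -1) →
    4 * (Module.finrank ℂ (inv13 r r' (e : ℂ) (e' : ℂ)) : ℤ) =
      144 * 169 ^ (m - 1) + (e * n + e' * n' + e * e' * n'') * (12 * 13 ^ (m - 1))) ∧
  (∀ r r' : Pt m → Pt m, DT r r' → Module.finrank ℂ (inv13 r r' 1 1) = 24 * 169 ^ (m - 1) + 6 * 13 ^ (m - 1))

/-- DIMK (from TRQ). Dimensions by fixed points; `S7DimK` with `13` in place of `7` (`w 0 = 12/13`, `w i = -1/13`; dihedral group: `(144a + 3·12b)/6`). Models (port): `Pool/Agent/Helper71/S7/M_DimK.lean` (all four parts), `Pool/Agent/Helper40/P11/M_DIMK.lean`. -/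
def StHDimK : Prop := Pool.Agent.Helper78.W3.S3Trq → HDimK

/-- SPLIT. Every function of `anti13 m` (`m ≥ 1`) is the sum of one invariant under `ng` and one invariant under `dR μ`. Model (port): `Pool/Agent/Helper55/P11/M_SPLIT.lean`. -/
def HSplit : Prop := ∀ (μ m : ℕ), 1 ≤ m → ∀ φ ∈ anti13 m, ∃ f ∈ anti13 m, ∃ l ∈ anti13 m,
  (∀ p, f (ng p) = f p) ∧ (∀ p, l (dR μ p) = l p) ∧ ∀ p, f p + l p = φ p

/-- The target for odd exponents: `((f, l), e)`, the values `{∞, 0}`, `{∞, 1/2}`, `{∞, 1/3}`. -/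
def subO (m : ℕ) : Submodule ℂ (((Pt m → ℂ) × (Pt m → ℂ)) × (Pt m → ℂ)) where
  carrier := {F | F.1.1 ∈ inv13 (m := m) ng sw 1 1 ∧ F.1.2 ∈ inv13 (m := m) (dR 0) cO 1 1 ∧
    F.2 ∈ inv1 (m := m) c3 1 ∧
    ∀ p : Pt m, (F.2 p - F.1.1 p) + (F.2 (sw (c3 p)) - F.1.1 (sw (c3 p))) + (F.2 (c3 (sw p)) - F.1.1 (c3 (sw p))) = 0 ∧
      (F.2 p - F.1.2 p) + (F.2 (c3 (cO p)) - F.1.2 (c3 (cO p))) = 0}
  add_mem' := by
    rintro F F' ⟨h0, h1, h2, h⟩ ⟨h0', h1', h2', h'⟩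
    refine ⟨Submodule.add_mem _ h0 h0', Submodule.add_mem _ h1 h1', Submodule.add_mem _ h2 h2',
      fun p => ?_⟩
    obtain ⟨a1, a2⟩ := h p
    obtain ⟨b1, b2⟩ := h' p
    simp only [Prod.fst_add, Prod.snd_add, Pi.add_apply] at a1 b1 ⊢
    exact ⟨by linear_combination a1 + b1, by linear_combination a2 + b2⟩
  zero_mem' := ⟨Submodule.zero_mem _, Submodule.zero_mem _, Submodule.zero_mem _, by intro p; simp⟩
  smul_mem' := by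
    rintro c F ⟨h0, h1, h2, h⟩
    refine ⟨Submodule.smul_mem _ c h0, Submodule.smul_mem _ c h1, Submodule.smul_mem _ c h2,
      fun p => ?_⟩
    obtain ⟨a1, a2⟩ := h p
    simp only [Prod.smul_fst, Prod.smul_snd, Pi.smul_apply, smul_eq_mul] at a1 ⊢
    exact ⟨by linear_combination c * a1, by linear_combination c * a2⟩

/-- The value `{∞, 3}` in terms of `F2 = {∞, 2}`, `F4 = {∞, 4}`, `F5 = {∞, 5}`, `A = {3, 5/2}`, `D = {7/3, 2}`, `M = {5/2, 19/8}`. -/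
def f3F {m : ℕ} (F2 F4 F5 A D M : Pt m → ℂ) (p : Pt m) : ℂ :=
  F2 p - A p - M p - D p - F4 (c9 (gM p)) + F5 (c9 (gM p))

/-- The value `{4, 7/2}` (`C = {7/2, 3}`). -/
def eeF {m : ℕ} (F2 F4 F5 A C D M : Pt m → ℂ) (p : Pt m) : ℂ := f3F F2 F4 F5 A D M p - F4 p - C p

/-- The value `{3/2, 7/5}` (`P = {3/2, 1}`, `B = {4/3, 1}`). -/
def hhF {m : ℕ} (F2 F4 F5 P A B C D M : Pt m → ℂ) (p : Pt m) : ℂ := P p - B p - eeF F2 F4 F5 A C D M (gB p)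

/-- The value `{11/2, 5}` (`F6 = {∞, 6}`). -/
def wwF {m : ℕ} (F2 F4 F5 F6 P A B C D M : Pt m → ℂ) (p : Pt m) : ℂ :=
  F5 p - F6 p + hhF F2 F4 F5 P A B C D M (gF p)

/-- `F + F∘r' - F∘r - F∘r∘r'`. -/
def alt {m : ℕ} (r r' : Pt m → Pt m) (F : Pt m → ℂ) (p : Pt m) : ℂ := F p + F (r' p) - F (r p) - F (r (r' p))

/-- `F + F∘r' + F∘r + F∘r∘r'`. -/
def sm4 {m : ℕ} (r r' : Pt m → Pt m) (F : Pt m → ℂ) (p : Pt m) : ℂ := F p + F (r' p) + F (r p) + F (r (r' p))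

/-- The sum over the dihedral group of order six. -/
def sm6 {m : ℕ} (r r' : Pt m → Pt m) (F : Pt m → ℂ) (p : Pt m) : ℂ :=
  F p + F (r p) + F (r' p) + F (r (r' p)) + F (r' (r p)) + F (r (r' (r p)))

/-- The eleven functions `(((F1, F2), (F4, F5)), ((F6, P), (A, B))), ((C, D), M)`. -/
abbrev Fn11 (m : ℕ) : Type := ((((Pt m → ℂ) × (Pt m → ℂ)) × ((Pt m → ℂ) × (Pt m → ℂ))) ×
  (((Pt m → ℂ) × (Pt m → ℂ)) × ((Pt m → ℂ) × (Pt m → ℂ)))) × (((Pt m → ℂ) × (Pt m → ℂ)) × (Pt m → ℂ))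

/-- The target for even exponents: the values `{∞, 1}`, `{∞, 2}`, `{∞, 4}`, `{∞, 5}`, `{∞, 6}`, `{3/2, 1}`, `{3, 5/2}`, `{4/3, 1}`, `{7/2, 3}`, `{7/3, 2}`, `{5/2, 19/8}`. -/
def subE (m : ℕ) : Submodule ℂ (Fn11 m) where
  carrier := {F | (F.1.1.1.1 ∈ anti13 m ∧ F.1.1.1.2 ∈ anti13 m ∧ F.1.1.2.1 ∈ anti13 m ∧ F.1.1.2.2 ∈ anti13 m) ∧
    (F.1.2.1.1 ∈ anti13 m ∧ F.1.2.1.2 ∈ anti13 m ∧ F.1.2.2.1 ∈ inv1 (m := m) rA 1 ∧ F.1.2.2.2 ∈ inv1 (m := m) rB 1) ∧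
    (F.2.1.1 ∈ inv1 (m := m) cC (-1) ∧ F.2.1.2 ∈ inv1 (m := m) cD (-1) ∧ F.2.2 ∈ inv1 (m := m) cM (-1)) ∧
    (∀ p : Pt m, alt ng sw F.1.1.1.1 p = 0) ∧ (∀ p : Pt m, alt (dR 1) c6 F.1.2.1.1 p = 0) ∧
    (∀ p : Pt m, sm6 cT cU (fun p => F.1.1.1.1 p - F.1.1.1.2 p - F.1.2.1.2 p) p = 0) ∧
    (∀ p : Pt m, sm4 cQ cR (wwF F.1.1.1.2 F.1.1.2.1 F.1.1.2.2 F.1.2.1.1 F.1.2.1.2 F.1.2.2.1 F.1.2.2.2 F.2.1.1 F.2.1.2 F.2.2) p = 0)}
  add_mem' := by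
    rintro F F' ⟨⟨h0, h1, h2, h3⟩, ⟨h4, h5, h6, h7⟩, ⟨h8, h9, h10⟩, e0, e1, e2, e3⟩
      ⟨⟨h0', h1', h2', h3'⟩, ⟨h4', h5', h6', h7'⟩, ⟨h8', h9', h10'⟩, e0', e1', e2', e3'⟩
    refine ⟨⟨(anti13 m).add_mem h0 h0', (anti13 m).add_mem h1 h1', (anti13 m).add_mem h2 h2', (anti13 m).add_mem h3 h3'⟩,
      ⟨(anti13 m).add_mem h4 h4', (anti13 m).add_mem h5 h5', Submodule.add_mem _ h6 h6', Submodule.add_mem _ h7 h7'⟩,
      ⟨Submodule.add_mem _ h8 h8', Submodule.add_mem _ h9 h9', Submodule.add_mem _ h10 h10'⟩,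
      fun p => ?_, fun p => ?_, fun p => ?_, fun p => ?_⟩
    · have a := e0 p
      have b := e0' p
      simp only [alt, Prod.fst_add, Prod.snd_add, Pi.add_apply] at a b ⊢
      linear_combination a + b
    · have a := e1 p
      have b := e1' p
      simp only [alt, Prod.fst_add, Prod.snd_add, Pi.add_apply] at a b ⊢
      linear_combination a + b
    · have a := e2 p
      have b := e2' p
      simp only [sm6, Prod.fst_add, Prod.snd_add, Pi.add_apply] at a b ⊢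
      linear_combination a + b
    · have a := e3 p
      have b := e3' p
      simp only [sm4, wwF, hhF, eeF, f3F, Prod.fst_add, Prod.snd_add, Pi.add_apply] at a b ⊢
      linear_combination a + b
  zero_mem' := ⟨⟨(anti13 m).zero_mem, (anti13 m).zero_mem, (anti13 m).zero_mem, (anti13 m).zero_mem⟩,
    ⟨(anti13 m).zero_mem, (anti13 m).zero_mem, Submodule.zero_mem _, Submodule.zero_mem _⟩,
    ⟨Submodule.zero_mem _, Submodule.zero_mem _, Submodule.zero_mem _⟩,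
    by intro p; simp [alt], by intro p; simp [alt], by intro p; simp [sm6], by intro p; simp [sm4, wwF, hhF, eeF, f3F]⟩
  smul_mem' := by
    rintro c F ⟨⟨h0, h1, h2, h3⟩, ⟨h4, h5, h6, h7⟩, ⟨h8, h9, h10⟩, e0, e1, e2, e3⟩
    refine ⟨⟨(anti13 m).smul_mem c h0, (anti13 m).smul_mem c h1, (anti13 m).smul_mem c h2, (anti13 m).smul_mem c h3⟩,
      ⟨(anti13 m).smul_mem c h4, (anti13 m).smul_mem c h5, Submodule.smul_mem _ c h6, Submodule.smul_mem _ c h7⟩,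
      ⟨Submodule.smul_mem _ c h8, Submodule.smul_mem _ c h9, Submodule.smul_mem _ c h10⟩,
      fun p => ?_, fun p => ?_, fun p => ?_, fun p => ?_⟩
    · have a := e0 p
      simp only [alt, Prod.smul_fst, Prod.smul_snd, Pi.smul_apply, smul_eq_mul] at a ⊢
      linear_combination c * a
    · have a := e1 p
      simp only [alt, Prod.smul_fst, Prod.smul_snd, Pi.smul_apply, smul_eq_mul] at a ⊢
      linear_combination c * a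
    · have a := e2 p
      simp only [sm6, Prod.smul_fst, Prod.smul_snd, Pi.smul_apply, smul_eq_mul] at a ⊢
      linear_combination c * a
    · have a := e3 p
      simp only [sm4, wwF, hhF, eeF, f3F, Prod.smul_fst, Prod.smul_snd, Pi.smul_apply, smul_eq_mul] at a ⊢
      linear_combination c * a

/-- The content of DIMO. -/
def HDimO : Prop := ∀ m : ℕ, 1 ≤ m →
  Module.finrank ℂ (subO m) = 84 * 169 ^ (m - 1) + 6 * 13 ^ (m - 1)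

/-- DIMO (from TYP, DIMK, SPLIT). `a = 169^(m-1)`, `b = 13^(m-1)`. `Vf = inv13 ng sw 1 1`, `Vl = inv13 (dR 0) cO 1 1` have dimension `36a + 6b` (types `0, 1, 1`), `Ve = inv1 c3 1` has `72a + 6b`, `VD = inv13 sw c3 1 1` has `24a + 6b` (DIMK, dihedral), `VB = inv13 c3 cO 1 1` has `36a + 6b` (types `1, 1, 0`). The map
`((f, l), e) ↦ ((e - f) + (e - f)∘sw∘c3 + (e - f)∘c3∘sw, (e - l) + (e - l)∘c3∘cO)` from `(Vf × Vl) × Ve` to `VD × VB` (`e + e∘sw∘c3 + e∘c3∘sw` is half the sum over the dihedral group, the same for `f`) is onto: given `(φ, ψ)` let (SPLIT, `μ = 0`) `φ/6 = f0 + l0`, `ψ/4 = f1 + l1`, `f0, f1` invariant under `ng`, `l0, l1` under `dR 0`;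
`u = l0 + f1`, `e = u + u∘c3`, `v = f1 - f0`, `f = v + v∘sw`, `w = l0 - l1`, `l = w + w∘cO`. Then `u - v = φ/6`, and the first component is the sum of `u - v` over the dihedral group, `= φ`; `u - w = ψ/4`, and the second component is the sum of `u - w` over the group of order four of `c3`, `cO`, `= ψ`. The kernel is `subO m`:
`2(36a+6b) + (72a+6b) - (24a+6b) - (36a+6b)`. Models: `Pool/Agent/Helper55/TK7/M_DIMOK7.lean` (the same argument), `Pool/Agent/Helper88/S7/M_DimO.lean`. -/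
def StHDimO : Prop := HTyp → HDimK → HSplit → HDimO

/-- The content of DIME. -/
def HDimE : Prop := ∀ m : ℕ, 1 ≤ m → Module.finrank ℂ (subE m) = 1092 * 169 ^ (m - 1) - 18 * 13 ^ (m - 1)

/-- DIME (from TYP, DIMK, SPLIT). `V = anti13 m` has dimension `144a`, `inv1 r 1` for `r = rA, rB` has `72a + 6b`, `inv1 r (-1)` for `r = cC, cD, cM` has `72a - 6b`; targets `T0 = inv13 ng sw (-1) 1`, `T6 = inv13 (dR 1) c6 (-1) 1` (`36a`, types `0, 1, 1`), `TD = inv13 cT cU 1 1` (`24a + 6b`), `TQ = inv13 cQ cR 1 1` (`36a + 6b`, types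
`1, 1, 0`). The map `F ↦ (alt ng sw F1, alt (dR 1) c6 F6, sm6 cT cU (F1 - F2 - P), sm4 cQ cR W)`, `W = wwF F2 F4 F5 F6 P A B C D M`, from the product of the eleven spaces to `(T0 × T6) × (TD × TQ)` is onto: for `(φ0, φ6, φD, φQ)` let `v = φD/6`, `w = φQ/4` and (SPLIT, `μ = 1`) `φ0/4 = f1 + l1`, `φ6/4 + v + w = f2 + l2`, `f1, f2` invariant
under `ng`, `l1, l2` under `dR 1`; `u = l1 + f2`; take `F1 = u`, `F2 = F4 = F5 = u - v`, `F6 = u - v - w`, all others `0`. Then `f3F = u - v`, `eeF = hhF = 0`, `W = w`, `sm4 cQ cR w = φQ`, `sm6 cT cU v = φD`, `alt ng sw u = alt ng sw l1 = φ0` (`alt ng sw f = 0` for `f` invariant under `ng`), `alt (dR 1) c6 (u - v - w) = alt (dR 1) c6 (f2 - (f2 + l2) + φ6/4) = φ6`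
(`alt (dR 1) c6 l = 0`). The kernel is `subE m`: `6·144a + 2(72a+6b) + 3(72a-6b) - 2·36a - (24a+6b) - (36a+6b) = 1092a - 18b`. Models: `Pool/Agent/Helper45/P11/M_DIME.lean`, `Pool/Agent/Helper86/TK7/M_DIMEK7.lean` (four relations). -/
def StHDimE : Prop := HTyp → HDimK → HSplit → HDimE

/-! ### Representatives -/

/-- The 182 representatives of the classes of `SL₂(ℤ)` modulo `(* 13*; 13* *)`. -/
def LE : List (ℤ × ℤ × ℤ × ℤ) :=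
  [(-1, -3, 0, -1), (-3, -5, 2, 3), (0, -1, 1, 3), (-6, 5, 1, -1), (0, -1, 1, -2), (1, -2, 1, -1), (1, -1, 2, -1), (5, -3, 2, -1), (-1, -6, 1, 5),
   (-4, -3, 3, 2), (-3, 2, 1, -1), (3, -7, 1, -2), (7, 3, 2, 1), (7, 2, 3, 1), (-7, 2, 3, -1), (4, -1, 1, 0), (4, 3, 1, 1), (-2, -3, 1, 1),
   (-5, -3, 2, 1), (-1, -1, 2, 1), (-3, -4, 1, 1), (-5, 2, 2, -1), (6, -5, 5, -4), (0, -1, 1, 6), (-1, -5, 0, -1), (0, -1, 1, -1), (0, -1, 1, -4),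
   (0, -1, 1, -3), (5, 3, 3, 2), (-4, 1, 3, -1), (3, 1, 2, 1), (4, -3, 3, -2), (2, -3, 1, -1), (1, 0, 1, 1), (-1, 0, 5, -1), (-1, 5, 0, -1),
   (1, 1, 2, 3), (1, -1, 3, -2), (3, 4, 2, 3), (1, -1, 5, -4), (-2, -1, 11, 5), (2, 1, 1, 1), (1, 0, 4, 1), (-1, 1, 1, -2), (-1, -1, 0, -1),
   (5, 7, 2, 3), (3, 5, 1, 2), (2, -3, 11, -16), (5, -1, 1, 0), (0, -1, 1, -6), (-4, -5, 1, 1), (-5, -6, 1, 1), (-1, 3, 0, -1), (-1, -1, 5, 4),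
   (1, -4, 1, -3), (1, 0, 6, 1), (-3, -1, 16, 5), (2, 5, 1, 3), (1, -2, 5, -9), (1, -1, 4, -3), (-1, -1, 4, 3), (6, -1, 1, 0), (1, 0, 5, 1),
   (-1, -1, 3, 2), (2, 3, 1, 2), (-1, -1, 1, 0), (3, -5, 2, -3), (1, -5, 1, -4), (5, 6, 4, 5), (-1, -4, 0, -1), (-3, 1, 2, -1), (-9, -7, 4, 3),
   (5, 1, 4, 1), (-2, -7, 1, 3), (-1, 0, 2, -1), (1, -6, 1, -5), (-7, -5, 3, 2), (-2, 1, 9, -5), (2, -7, 1, -3), (5, -2, 3, -1), (2, -5, 1, -2),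
   (7, -5, 3, -2), (-1, 1, 5, -6), (-5, -1, 1, 0), (6, 5, 1, 1), (-1, -5, 1, 4), (1, 1, 3, 4), (-1, -1, 6, 5), (-1, 0, 1, -1), (-2, -1, 1, 0),
   (-2, 1, 1, -1), (-2, -5, 1, 2), (-5, 4, 1, -1), (2, -1, 11, -5), (6, 1, 5, 1), (5, 4, 1, 1), (0, -1, 1, -5), (7, -4, 2, -1), (-1, -6, 0, -1),
   (4, 1, 3, 1), (5, -4, 4, -3), (-1, 1, 4, -5), (-2, 1, 11, -6), (1, 1, 1, 2), (-5, 1, 4, -1), (3, -2, 2, -1), (-1, 2, 0, -1), (0, -1, 1, 0),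
   (3, -4, 1, -1), (-3, 2, 16, -11), (1, -2, 6, -11), (3, 2, 1, 1), (-5, -2, 3, 1), (-6, -7, 1, 1), (2, -9, 1, -4), (3, -1, 1, 0), (-1, -3, 1, 2),
   (1, 1, 5, 6), (1, 2, 5, 11), (1, 1, 4, 5), (-1, 0, 3, -1), (-1, -2, 5, 9), (-1, 4, 0, -1), (-9, 2, 4, -1), (-7, 6, 1, -1), (-1, -2, 6, 11),
   (-7, 3, 2, -1), (-4, 5, 3, -4), (-6, -1, 1, 0), (1, 0, 3, 1), (-1, 6, 0, -1), (-5, -4, 4, 3), (1, -1, 1, 0), (-1, -2, 1, 1), (2, -1, 1, 0),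
   (-3, -7, 1, 2), (0, -1, 1, 4), (-1, 0, 4, -1), (-5, 7, 2, -3), (0, -1, 1, 2), (9, -7, 4, -3), (-4, 3, 1, -1), (-1, 2, 5, -11), (5, 2, 2, 1),
   (-1, 1, 0, -1), (-1, 1, 3, -4), (5, -6, 1, -1), (-3, 5, 1, -2), (0, -1, 1, 1), (4, 5, 3, 4), (-7, -4, 2, 1), (0, -1, 1, 5), (-4, 7, 1, -2),
   (-5, 6, 4, -5), (-2, 3, 1, -2), (-1, 0, 0, -1), (-3, 4, 2, -3), (-7, 9, 3, -4), (-1, -2, 0, -1), (4, 7, 1, 2), (1, -3, 1, -2), (-4, -1, 1, 0),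
   (4, -5, 1, -1), (-1, 0, 6, -1), (3, -1, 16, -5), (-2, 5, 1, -3), (-2, -9, 1, 4), (-1, 3, 5, -16), (-6, 1, 5, -1), (1, 0, 2, 1), (9, 2, 4, 1),
   (1, -1, 6, -5), (2, 1, 9, 5), (-5, 3, 3, -2), (-1, -4, 1, 3), (2, 1, 11, 6), (-3, -1, 1, 0), (-6, -5, 5, 4), (7, 9, 3, 4), (-1, 1, 2, -3),
   (-3, -2, 2, 1), (1, 3, 5, 16)]

/-- The fourteen representatives of `Γ₀(13) \ SL₂(ℤ)`. -/
def LO : List (ℤ × ℤ × ℤ × ℤ) :=
  [(0, -1, 1, 0), (-1, 0, 1, -1), (1, 0, 2, 1), (-1, 0, 2, -1), (1, 0, 3, 1), (1, 1, 2, 3), (-1, 0, 3, -1), (0, -1, 1, 3), (0, -1, 1, 1),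
   (-1, 1, 2, -3), (0, -1, 1, -2), (0, -1, 1, -3), (0, -1, 1, 2), (-1, 0, 0, -1)]

/-- The content of REP. -/
def HRep : Prop := ((∀ m ∈ LE, m.1 * m.2.2.2 - m.2.1 * m.2.2.1 = 1) ∧
  ∀ a b c d : ℤ, a * d - b * c = 1 → ∃ m ∈ LE, ∃ α β γ δ : ℤ, α * δ - 169 * β * γ = 1 ∧
    a = α * m.1 + 13 * β * m.2.2.1 ∧ b = α * m.2.1 + 13 * β * m.2.2.2 ∧
    c = 13 * γ * m.1 + δ * m.2.2.1 ∧ d = 13 * γ * m.2.1 + δ * m.2.2.2) ∧
  ((∀ m ∈ LO, m.1 * m.2.2.2 - m.2.1 * m.2.2.1 = 1) ∧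
  ∀ a b c d : ℤ, a * d - b * c = 1 → ∃ m ∈ LO, ∃ α β γ δ : ℤ, α * δ - 13 * β * γ = 1 ∧
    a = α * m.1 + β * m.2.2.1 ∧ b = α * m.2.1 + β * m.2.2.2 ∧
    c = 13 * γ * m.1 + δ * m.2.2.1 ∧ d = 13 * γ * m.2.1 + δ * m.2.2.2)

/-- REP. `g' = g m⁻¹` has the off-diagonal entries `b m1 - a m2` and `c m4 - d m3`; modulo `13` there is an `m` in `LE` for which both vanish (first and second rows proportional). Normalise the rows modulo `13` to `(1, t)` or `(0, 1)` before the finite check: `14 · 13` pairs (`decide` over `ZMod 13 × ZMod 13` in four cases). For `LO` only the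
second rows. Model (port): `Pool/Agent/Helper47/P11/M_REP.lean`. -/
def StHRep : Prop := HRep

/-- The eleven functions of a symbol. -/
noncomputable def pf11 (m : ℕ) (G : ℤ → ℤ → ℂ) : Fn11 m :=
  (((((fun p : Pt m => edge13 1 1 0 1 1 G p.1 p.2), (fun p : Pt m => edge13 1 1 0 2 1 G p.1 p.2)),
    ((fun p : Pt m => edge13 1 1 0 4 1 G p.1 p.2), (fun p : Pt m => edge13 1 1 0 5 1 G p.1 p.2))),
    (((fun p : Pt m => edge13 1 1 0 6 1 G p.1 p.2), (fun p : Pt m => edge13 1 3 2 1 1 G p.1 p.2)),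
    ((fun p : Pt m => edge13 1 3 1 5 2 G p.1 p.2), (fun p : Pt m => edge13 1 4 3 1 1 G p.1 p.2)))),
    (((fun p : Pt m => edge13 1 7 2 3 1 G p.1 p.2), (fun p : Pt m => edge13 1 7 3 2 1 G p.1 p.2)),
    (fun p : Pt m => edge13 1 5 2 19 8 G p.1 p.2)))

/-- The content of E1A. -/
def HE1a : Prop := ∀ (k : ℕ) (G : ℤ → ℤ → ℂ), 2 ≤ k → BalE k G → pf11 (k - 1) G ∈ subE (k - 1)

/-- E1A (from EDG, PLA, TYP). Even exponent, `m = k - 1`, `μ = 1`, `b = (0 1; 1 0)`: `F1 = {∞, 1}`, `F2 = {∞, 2}`, `F4 = {∞, 4}`, `F5 = {∞, 5}`, `F6 = {∞, 6}`, `P = {3/2, 1}`, `A = {3, 5/2}`, `B = {4/3, 1}`, `C = {7/2, 3}`, `D = {7/3, 2}`, `M = {5/2, 19/8}`. (i) `anti13`: `(1 i13^(k-1); 0 1) g` has coordinates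
`(x + i 13^(k-2), y)`, `(1 0; i13^(k-1) 1) g` has `(x, y + i 13^(k-2))` for standard `g`. (ii) By the rule at the head of this file: `C(cC p) = -C(p)` (`(13 -42; 4 -13)` fixes `3`, `7/2`), `D(cD p) = -D(p)` (`(13 -28; 6 -13)` fixes `2`, `7/3`), `M(cM p) = -M(p)` (`(39 -95; 16 -39)` fixes `5/2`, `19/8`), `A(rA p) = -{5/2, 3} = A(p)`,
`B(rB p) = -{1, 4/3} = B(p)`. (iii) Square `∞, 1, 0, -1`: `alt ng sw F1 = {∞,1} - {0,1} - {∞,-1} + {0,-1} = 0`. Square `∞, 6, 13/2, 7`: `F6(c6 p) = -{13/2,6}`, `F6(dR 1 p) = {∞,7}` (`(-1 13; 0 1)`), `F6(dR 1 (c6 p)) = -{13/2,7}`: `alt (dR 1) c6 F6 = {∞,13/2} - {∞,13/2} = 0`. (iv) `E = F1 - F2 - P = {2,1} - {3/2,1} = {2, 3/2}`;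
`T = E + E∘cT = {2,3/2} - {5/3,3/2} = {2, 5/3}` (`(13 -21; 8 -13)` fixes `3/2`, exchanges `2`, `5/3`); with `ρU = (13 -24; 7 -13)` (fixes `2`, exchanges `5/3`, `7/4`), `ρT` fixes `7/4`: `T(cU p) = -{2,7/4}`, `T(cU (cT p)) = ρT{2,7/4} = {5/3, 7/4}` (two signs), and `T + T∘cU + T∘cU∘cT = {2,5/3} - {2,7/4} + {5/3,7/4} = 0`; this is
`sm6 cT cU E` (`E(cT (cU (cT p)))` is `E(cU(cT(cU p)))`). (v) `F4 - F5 = {5, 4}`; its value at `c9 (gM p)` is `-{7/3, 19/8}` (first `(13 -56; 3 -13)`: `{9/2, 4}`, then `(-31 143; -13 60)`), so `{5/2,7/3} = M + (F4 - F5)∘c9∘gM`, `{3,2} = A + {5/2,7/3} + D`, `f3F = {∞,2} - {3,2} = {∞, 3}`; `eeF = {∞,3} - {∞,4} - {7/2,3} = {4, 7/2}`;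
`eeF (gB p) = {7/5, 4/3}` (`(-18 65; -13 47)`, no sign), `hhF = {3/2,1} - {4/3,1} - {7/5,4/3} = {3/2, 7/5}`; `hhF (gF p) = -{6, 11/2}` (`(52 -75; 9 -13)`), `wwF = {6,5} - {6,11/2} = {11/2, 5}` (as `{u,v} = G(gu) - G(gv)`). (vi) `W + W∘cQ = {11/2,5} - {16/3,5} = {11/2, 16/3}` (`(26 -135; 5 -26)` fixes `5`), and `cR` (`(65 -352; 12 -65)`
fixes `11/2`, `16/3`) changes its sign: `sm4 cQ cR W = 0`. Models: `Pool/Agent/Helper53/P11/M_E1A.lean`, `Pool/Agent/Helper9/S7/M_E1.lean` (the hexagon). -/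
def StHE1a : Prop := S13Edg → S13PlA → HTyp → HE1a

/-- The content of E1B. -/
def HE1b : Prop := ∀ (k : ℕ) (G : ℤ → ℤ → ℂ), 2 ≤ k → BalE k G →
  (∀ x y : ZMod (13 ^ (k - 1)), (edge13 1 1 0 1 1 G x y = 0 ∧ edge13 1 1 0 2 1 G x y = 0 ∧ edge13 1 1 0 4 1 G x y = 0 ∧
    edge13 1 1 0 5 1 G x y = 0) ∧ (edge13 1 1 0 6 1 G x y = 0 ∧ edge13 1 3 2 1 1 G x y = 0 ∧ edge13 1 3 1 5 2 G x y = 0 ∧
    edge13 1 4 3 1 1 G x y = 0) ∧ (edge13 1 7 2 3 1 G x y = 0 ∧ edge13 1 7 3 2 1 G x y = 0 ∧ edge13 1 5 2 19 8 G x y = 0)) → EqC G 0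

/-- E1B (from EDG, PLA, REP, FAR). `~` as in E1B of P11 (`Pool/Agent/Helper89/P11/M_E1B.lean`): `v ~ w` if `G(gv) = G(gw)` for all `g = (a 13b; 13c d)` of determinant one; invariant under these `g`, `*`, `b = (0 1; 1 0)`. Given: `∞ ~ 1`, `∞ ~ 2`, `∞ ~ 4`, `∞ ~ 5`, `∞ ~ 6`, `3/2 ~ 1`, `3 ~ 5/2`, `4/3 ~ 1`, `7/2 ~ 3`, `7/3 ~ 2`, `5/2 ~ 19/8`.
First `9/2 ~ 4` (`5 ~ 4` by `b`, `(-56 13; -13 3)`), `7/3 ~ 19/8` (`9/2 ~ 4` by `*`, `(31 143; 13 60)`), `0 ~ 1` (`∞ ~ 1` by `b`): so `∞, 0, 1, 2, 3, 4, 5, 6, 3/2, 5/2, 4/3, 7/2, 7/3, 19/8` are equivalent, with `*` also their negatives. Then (apply the word, then the matrix to a known equivalence): `∞ ~ 1/2` (`0 ~ 2` by `b`); `∞ ~ 1/3` (`0 ~ 3` by `b`); `∞ ~ 1/4` (`0 ~ 4` by `b`); `∞ ~ 1/5` (`0 ~ 5` by `b`); `∞ ~ 1/6` (`0 ~ 6` by `b`); `∞ ~ -7` (`∞ ~ 6` by `(1 -13; 0 1)`); `4/3 ~ 5/4` (`-1 ~ -3/2` by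 `b`, `(-17 -13; -13 -10)`); `3/2 ~ 5/3` (`3/2 ~ 2` by `b`, `(21 -13; 13 -8)`); `-2 ~ -9/4` (`-2 ~ -5/2` by `b`, `(28 13; -13 -6)`); `-1 ~ -6/5` (`-7/2 ~ -4` by `b`, `(-46 -13; 39 11)`); `-1/4 ~ -2/9` (`-4 ~ -5` by `(-3 -13; 13 56)`); `-1/6 ~ -2/11` (`5/4 ~ 6/5` by `b`, `(16 -13; -91 74)`); `-1/5 ~ -3/16` (`-1/5 ~ -2/11` by `b`, `(5 26; -26 -135)`). With `*`:
`∞, 0, ±1, ±1/2, ±2, ±3, ±1/3, ±3/2, ±4/3, ±4, ±1/4, ±5/4, ±5, ±5/3, ±1/5, ±5/2, ±1/6, ±6/5, ±6, ±7, ±7/3, ±7/2, ±9/4, ±2/9, ±2/11, ±3/16` are equivalent: both cusps of every matrix in `LE`; REP and FAR. -/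
def StHE1b : Prop := S13Edg → S13PlA → HRep → StFar → HE1b

/-- The content of O1. -/
def HO1 : Prop := ∀ (k : ℕ) (G : ℤ → ℤ → ℂ), 1 ≤ k → BalO k G →
  ((((fun p : Pt k => edge13 0 1 0 0 1 G p.1 p.2), (fun p : Pt k => edge13 0 1 0 1 2 G p.1 p.2)),
    (fun p : Pt k => edge13 0 1 0 1 3 G p.1 p.2)) ∈ subO k) ∧
  ((∀ x y : ZMod (13 ^ k), edge13 0 1 0 0 1 G x y = 0 ∧ edge13 0 1 0 1 2 G x y = 0 ∧
    edge13 0 1 0 1 3 G x y = 0) → EqC G 0)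

/-- O1 (from EDG, PLA, TYP, REP, FAR). Odd exponent, `m = k`, `μ = 0`, `b = (0 1; 13 0)`: `f = {∞, 0}`, `l = {∞, 1/2}`, `e = {∞, 1/3}`. `f(ng p) = f(p)`, `f(sw p) = -{0, ∞} = f(p)`; `l(dR 0 p) = l(p)` (`(-1 1; 0 1)`), `l(cO p) = -{1/2, ∞} = l(p)` (`(13 -6; 26 -13)`); `e(c3 p) = -{1/3, ∞} = e(p)` (`(13 -4; 39 -13)`).
Hexagon: `h = f - e = {1/3, 0}`, `c3 (sw p) = p α`, `α = (3 -1; 13 -4)` of order three, `sw (c3 p) = p α²` (`α² = (-4 1; -13 3)`): `α` maps `0 ↦ 1/4 ↦ 1/3 ↦ 0`; the values of `h` at `p, pα, pα²` are `{1/3, 0}`, `{0, 1/4}` (`α(1/3) = 0`), `{1/4, 1/3}`: sum zero. Square: `e - l = {1/2, 1/3}`, `c3 (cO p) = p β`, `β = (5 -2; 13 -5)` up to sign,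
which exchanges `1/2` and `1/3`: `(e - l) + (e - l)∘c3∘cO = {1/2,1/3} + {1/3,1/2} = 0`. Injectivity (`~` as in E1B for `(a b; 13c d)`): given `∞ ~ 0`, `∞ ~ 1/2`, `∞ ~ 1/3`; `∞ ~ -1` (`∞ ~ 0` by `(1 -1; 0 1)`). With `*`: `0, ±1, ∞, ±1/2, ±1/3` are equivalent: both cusps of every matrix in `LO`; REP, FAR. Models: `Pool/Agent/Helper85/P11/M_O1.lean`, `Pool/Agent/Helper47/S7/M_O1.lean`. -/
def StHO1 : Prop := S13Edg → S13PlA → HTyp → HRep → StFar → HO1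

/-- UB. For `n = 2k ≥ 4` the map to the eleven functions in `subE (k-1)`, of dimension `dd13 n`; for `n = 2k+1 ≥ 3` the map to the three functions in `subO k`, of dimension `dd13 n`. Model: `Pool/Agent/Helper56/P11/M_UB.lean`. -/
def StHUB : Prop := HBal → HE1a → HE1b → HO1 → HDimE → HDimO → UBP 13 dd13

end Pool.Agent.Helper76.P13
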